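import Pool.Agent.Helper91.Duality

set_option autoImplicit false

/-!
# Compact groups of prime exponent and small tightness
-/

open Topology Filter Set
open Pool.Agent.Helper91.Duality

namespace Pool.Agent.Helper21.LM

/-- Characters separate a point from a closed subgroup of a compact group. -/
theorem exists_char_of_notMem {K : Type*} [AddCommGroup K] [TopologicalSpace K]
    [IsTopologicalAddGroup K] [CompactSpace K] (L : AddSubgroup K)
    (hL : IsClosed (L : Set K)) {x : K} (hx : x ∉ L) :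
    ∃ χ : K →+ AddCircle (1 : ℝ), Continuous χ ∧ (∀ l ∈ L, χ l = 0) ∧ χ x ≠ 0 := by
  have : IsClosed (L : Set K) := hL
  have hne : (QuotientAddGroup.mk x : K ⧸ L) ≠ 0 := by
    intro h
    exact hx ((QuotientAddGroup.eq_zero_iff x).mp h)
  obtain ⟨Ψ0, hΨ0, hΨ0ne⟩ := Pool.Agent.Helper89.PeterWeyl.exists_char_ne_zero hne
  refine ⟨Ψ0.comp (QuotientAddGroup.mk' L), hΨ0.comp QuotientAddGroup.continuous_mk, ?_, hΨ0ne⟩
  intro p hp
  change Ψ0 (QuotientAddGroup.mk p) = 0
  rw [(QuotientAddGroup.eq_zero_iff p).mpr hp, map_zero]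

/-- The case of few characters. -/
theorem sep_of_few_chars {K : Type} [AddCommGroup K] [TopologicalSpace K]
    [IsTopologicalAddGroup K] [CompactSpace K] [T2Space K] (κ : Cardinal.{0})
    (hκ : Cardinal.aleph0 ≤ κ) (hX : Cardinal.mk (Ch K) ≤ κ) :
    ∃ (I : Type) (V : I → Set K), Cardinal.mk I ≤ κ ∧ (∀ i, V i ∈ nhds 0) ∧
      ∀ x : K, (∀ i, x ∈ V i) → x = 0 := by
  refine ⟨Ch K × ℕ, fun q => {x | ‖q.1.1 x‖ < 1 / ((q.2 : ℝ) + 1)}, ?_, ?_, ?_⟩
  · rw [← Cardinal.mul_def, Cardinal.mk_nat]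
    refine le_trans (mul_le_mul_left hX _) ?_
    exact (Cardinal.mul_aleph0_eq hκ).le
  · rintro ⟨χ, n⟩
    have : Continuous fun x => ‖χ.1 x‖ := (mem_Ch.1 χ.2).norm
    apply (isOpen_lt this continuous_const).mem_nhds
    show ‖χ.1 0‖ < 1 / ((n : ℝ) + 1)
    rw [map_zero, norm_zero]
    positivity
  · intro x hx
    by_contra hne
    obtain ⟨χ, hχ, hχx⟩ := Pool.Agent.Helper89.PeterWeyl.exists_char_ne_zero hne
    have hpos : 0 < ‖χ x‖ := norm_pos_iff.2 hχx
    obtain ⟨n, hn⟩ := exists_nat_one_div_lt hpos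
    have := hx (⟨χ, hχ⟩, n)
    have h2 : ‖χ x‖ < 1 / ((n : ℝ) + 1) := this
    linarith

theorem sep_exponent_aux {K : Type} [AddCommGroup K] [TopologicalSpace K]
    [IsTopologicalAddGroup K] [CompactSpace K] [T2Space K] (𝔽 : Type) [Field 𝔽] [Finite 𝔽]
    [Module 𝔽 (Ch K)] (ε : 𝔽 →+ AddCircle (1 : ℝ)) (hε : Function.Injective ε)
    (κ : Cardinal.{0}) (hκ : Cardinal.aleph0 ≤ κ)
    (ht : ∀ A : Set K, ∀ x ∈ closure A, ∃ B ⊆ A, Cardinal.mk B ≤ κ ∧ x ∈ closure B) :
    Cardinal.mk (Ch K) ≤ κ := by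
  classical
  by_contra hX
  let b := Module.Basis.ofVectorSpace 𝔽 (Ch K)
  set I := Module.Basis.ofVectorSpaceIndex 𝔽 (Ch K) with hI
  -- the index set is large
  have hIκ : κ < Cardinal.mk I := by
    by_contra hcon
    rw [not_lt] at hcon
    apply hX
    have h1 : Cardinal.mk (Ch K) = Cardinal.mk (I →₀ 𝔽) :=
      Cardinal.mk_congr b.repr.toEquiv
    rw [h1]
    rcases finite_or_infinite I with hfin | hinf
    · have : Finite (I →₀ 𝔽) := Finite.of_injective (fun f => (f : I → 𝔽)) DFunLike.coe_injective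
      exact le_trans (Cardinal.lt_aleph0_of_finite _).le hκ
    · rw [Cardinal.mk_finsupp_of_infinite]
      apply max_le hcon
      exact le_trans (Cardinal.lt_aleph0_of_finite _).le hκ
  -- the points
  let f : Set I → (Ch K →ₗ[𝔽] 𝔽) := fun J =>
    b.constr 𝔽 (fun ξ => if ξ ∈ J then (1 : 𝔽) else 0)
  have hf : ∀ J ξ, f J (b ξ) = if ξ ∈ J then 1 else 0 := fun J ξ => by
    simp only [f]
    exact b.constr_basis _ _ _
  have hpt : ∀ J : Set I, ∃ x : K, ∀ χ : Ch K, ε (f J χ) = χ.1 x := fun J =>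
    dual_surj ((ε).comp (f J).toAddMonoidHom)
  choose x hx using hpt
  have hval : ∀ J ξ, (b ξ).1 (x J) ≠ 0 ↔ ξ ∈ J := by
    intro J ξ
    rw [← hx J (b ξ), hf]
    by_cases h : ξ ∈ J
    · rw [if_pos h]
      simp only [h, iff_true]
      intro h0
      rw [← map_zero (ε)] at h0
      exact one_ne_zero (hε h0)
    · rw [if_neg h, map_zero]
      simp [h]
  -- the subgroup of small support
  let supp : K → Set I := fun y => {ξ | (b ξ).1 y ≠ 0}
  let A : AddSubgroup K :=
    { carrier := {y | Cardinal.mk (supp y) ≤ κ}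
      zero_mem' := by
        show Cardinal.mk (supp 0) ≤ κ
        have : supp 0 = ∅ := by
          ext ξ
          simp [supp]
        rw [this]
        simp
      add_mem' := by
        intro y z hy hz
        show Cardinal.mk (supp (y + z)) ≤ κ
        have hsub : supp (y + z) ⊆ supp y ∪ supp z := by
          intro ξ hξ
          by_contra hno
          rw [mem_union, not_or] at hno
          have h1 : (b ξ).1 y = 0 := not_not.1 hno.1
          have h2 : (b ξ).1 z = 0 := not_not.1 hno.2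
          apply hξ
          rw [map_add, h1, h2, add_zero]
        refine le_trans (Cardinal.mk_le_mk_of_subset hsub) ?_
        refine le_trans (Cardinal.mk_union_le _ _) ?_
        refine le_trans (add_le_add hy hz) ?_
        exact (Cardinal.add_eq_self hκ).le
      neg_mem' := by
        intro y hy
        show Cardinal.mk (supp (-y)) ≤ κ
        have : supp (-y) = supp y := by
          ext ξ
          show (b ξ).1 (-y) ≠ 0 ↔ (b ξ).1 y ≠ 0
          rw [map_neg, neg_ne_zero]
        rw [this]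
        exact hy }
  have hAmem : ∀ y, y ∈ A ↔ Cardinal.mk (supp y) ≤ κ := fun _ => Iff.rfl
  have hAcl : IsClosed (A : Set K) := by
    rw [← closure_subset_iff_isClosed]
    intro y hy
    obtain ⟨B, hBA, hB, hyB⟩ := ht _ y hy
    show Cardinal.mk (supp y) ≤ κ
    have hsub : supp y ⊆ ⋃ z : B, supp z := by
      intro ξ hξ
      by_contra hno
      apply hξ
      have hcl : IsClosed {z : K | (b ξ).1 z = 0} :=
        isClosed_singleton.preimage (f := fun z => (b ξ).1 z) (mem_Ch.1 (b ξ).2)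
      have : closure B ⊆ {z : K | (b ξ).1 z = 0} := by
        apply closure_minimal _ hcl
        intro z hz
        by_contra hne
        exact hno (mem_iUnion.2 ⟨⟨z, hz⟩, hne⟩)
      exact this hyB
    refine le_trans (Cardinal.mk_le_mk_of_subset hsub) ?_
    refine le_trans (Cardinal.mk_iUnion_le_sum_mk) ?_
    refine le_trans (Cardinal.sum_le_sum _ (fun _ => κ) (fun z => hBA z.2)) ?_
    rw [Cardinal.sum_const']
    refine le_trans (mul_le_mul_left hB κ) ?_
    exact (Cardinal.mul_eq_self hκ).le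
  -- the full point lies in `A`
  have hxI : x univ ∈ A := by
    by_contra hno
    obtain ⟨χ, hχ, hχA, hχx⟩ := exists_char_of_notMem A hAcl hno
    let χ' : Ch K := ⟨χ, hχ⟩
    let F : Set I := ((b.repr χ').support : Set I)
    have hF : x F ∈ A := by
      rw [hAmem]
      have : supp (x F) = F := by
        ext ξ
        exact hval F ξ
      rw [this]
      exact le_trans (Cardinal.lt_aleph0_of_finite _).le hκ
    have h1 : f univ χ' = f F χ' := by
      have h2 : χ' = (b.repr χ').sum fun i a => a • b i := (b.linearCombination_repr χ').symm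
      conv_lhs => rw [h2]
      conv_rhs => rw [h2]
      rw [map_finsuppSum, map_finsuppSum]
      apply Finsupp.sum_congr
      intro ξ hξ
      rw [map_smul, map_smul, hf, hf, if_pos (mem_univ _), if_pos]
      exact hξ
    apply hχx
    have h3 := hx univ χ'
    have h4 := hx F χ'
    rw [h1, h4] at h3
    show χ'.1 (x univ) = 0
    rw [← h3]
    exact hχA _ hF
  rw [hAmem] at hxI
  have : supp (x univ) = univ := by
    ext ξ
    exact hval univ ξ
  rw [this, Cardinal.mk_univ] at hxI
  exact absurd hxI (not_le.2 hIκ)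

theorem sep_of_tight_exponent {K : Type} [AddCommGroup K] [TopologicalSpace K]
    [IsTopologicalAddGroup K] [CompactSpace K] [T2Space K] {p : ℕ} (hp : p.Prime)
    (hpK : ∀ x : K, p • x = 0) (κ : Cardinal.{0}) (hκ : Cardinal.aleph0 ≤ κ)
    (ht : ∀ A : Set K, ∀ x ∈ closure A, ∃ B ⊆ A, Cardinal.mk B ≤ κ ∧ x ∈ closure B) :
    ∃ (I : Type) (V : I → Set K), Cardinal.mk I ≤ κ ∧ (∀ i, V i ∈ nhds 0) ∧
      ∀ x : K, (∀ i, x ∈ V i) → x = 0 := by
  apply sep_of_few_chars κ hκ
  have : Fact p.Prime := ⟨hp⟩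
  have hpX : ∀ χ : Ch K, p • χ = 0 := by
    intro χ
    ext x
    show p • (χ.1 x) = 0
    rw [← map_nsmul, hpK, map_zero]
  let _ : Module (ZMod p) (Ch K) := AddCommGroup.zmodModule hpX
  exact sep_exponent_aux (ZMod p) (ZMod.toAddCircle (N := p)) (ZMod.toAddCircle_injective p) κ hκ ht

end Pool.Agent.Helper21.LM
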