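import Pool.Agent.Helper21.LM.TF3
import Pool.Agent.Helper21.LM.Exp
import Pool.Agent.Helper99.Tight

set_option autoImplicit false

/-!
# Assembly: tightness bounds the character
-/

open Topology Filter Set

namespace Pool.Agent.Helper21.LM

/-- Tightness at most `κ`. -/
def Tight (X : Type) [TopologicalSpace X] (κ : Cardinal.{0}) : Prop :=
  ∀ A : Set X, ∀ x ∈ closure A, ∃ B ⊆ A, Cardinal.mk B ≤ κ ∧ x ∈ closure B

/-- Zero is the intersection of `κ` neighbourhoods. -/
def Sep (G : Type) [AddCommGroup G] [TopologicalSpace G] (κ : Cardinal.{0}) : Prop :=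
  ∃ (I : Type) (V : I → Set G), Cardinal.mk I ≤ κ ∧ (∀ i, V i ∈ 𝓝 (0 : G)) ∧
    ∀ x : G, (∀ i, x ∈ V i) → x = 0

open Pool.Agent.Helper99.Tight (sep_of_tight)

theorem Tight.of_inducing {X Y : Type} [TopologicalSpace X] [TopologicalSpace Y]
    {κ : Cardinal.{0}} (hY : Tight Y κ) (f : X → Y) (hf : IsEmbedding f) : Tight X κ := by
  intro A x hx
  rw [hf.isInducing.closure_eq_preimage_closure_image] at hx
  obtain ⟨B, hBA, hB, hxB⟩ := hY _ _ hx
  refine ⟨A ∩ f ⁻¹' B, inter_subset_left, ?_, ?_⟩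
  · refine le_trans (Cardinal.mk_le_mk_of_subset inter_subset_right) ?_
    exact le_trans (Cardinal.mk_preimage_of_injective f B hf.injective) hB
  · rw [hf.isInducing.closure_eq_preimage_closure_image]
    have : f '' (A ∩ f ⁻¹' B) = B := by
      ext y
      constructor
      · rintro ⟨a, ⟨_, ha⟩, rfl⟩; exact ha
      · intro hy
        obtain ⟨a, ha, rfl⟩ := hBA hy
        exact ⟨a, ⟨ha, hy⟩, rfl⟩
    show f x ∈ closure (f '' (A ∩ f ⁻¹' B))
    rwa [this]

section
variable {G : Type} [AddCommGroup G] [τ : TopologicalSpace G] [IsTopologicalAddGroup G]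

/-- Halving sequences. -/
def Halving (W : ℕ → Set G) : Prop :=
  (∀ n, W n ∈ 𝓝 (0 : G)) ∧ (∀ n, ∀ x ∈ W n, -x ∈ W n) ∧
    ∀ n, ∀ x ∈ W (n + 1), ∀ y ∈ W (n + 1), x + y ∈ W n

theorem exists_halving {V : Set G} (hV : V ∈ 𝓝 (0 : G)) :
    ∃ W : ℕ → Set G, Halving W ∧ W 0 ⊆ V := by
  let T := {V : Set G // V ∈ 𝓝 (0 : G) ∧ ∀ x ∈ V, -x ∈ V}
  have hstep : ∀ V : T, ∃ W : T, ∀ x ∈ W.1, ∀ y ∈ W.1, x + y ∈ V.1 := by
    rintro ⟨V, hV, hVs⟩
    obtain ⟨W, hW, hWs, hWV, _⟩ := exists_half hV
    exact ⟨⟨W, hW, hWs⟩, hWV⟩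
  choose f hf using hstep
  obtain ⟨W, hW, hWs, _, hWV⟩ := exists_half hV
  let s : ℕ → T := fun n => Nat.rec ⟨W, hW, hWs⟩ (fun _ V => f V) n
  refine ⟨fun n => (s n).1, ⟨fun n => (s n).2.1, fun n => (s n).2.2, fun n => hf (s n)⟩, hWV⟩

/-- The closed subgroup determined by a family of halving sequences. -/
def haloSub {J : Type*} (W : J → ℕ → Set G) (hW : ∀ j, Halving (W j)) : AddSubgroup G where
  carrier := {x | ∀ j n, x ∈ W j n}
  zero_mem' := fun j n => mem_of_mem_nhds ((hW j).1 n)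
  add_mem' := fun {x y} hx hy j n => (hW j).2.2 n x (hx j _) y (hy j _)
  neg_mem' := fun {x} hx j n => (hW j).2.1 n x (hx j n)

omit [IsTopologicalAddGroup G] in
theorem mem_haloSub {J : Type*} {W : J → ℕ → Set G} {hW : ∀ j, Halving (W j)} {x : G} :
    x ∈ haloSub W hW ↔ ∀ j n, x ∈ W j n := Iff.rfl

theorem isClosed_haloSub {J : Type*} (W : J → ℕ → Set G) (hW : ∀ j, Halving (W j)) :
    IsClosed (haloSub W hW : Set G) := by
  rw [← closure_subset_iff_isClosed]
  intro x hx j n
  rw [mem_closure_iff_nhds_zero] at hx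
  obtain ⟨y, hy, hyx⟩ := hx _ ((hW j).1 (n + 1))
  have := (hW j).2.2 n y (hy j _) _ ((hW j).2.1 _ _ hyx)
  have h2 : y + -(y - x) = x := by abel
  rwa [h2] at this

end

section
variable {N : Type} [AddCommGroup N] [TopologicalSpace N] [IsTopologicalAddGroup N] [T2Space N]

/-- The `n`-torsion subgroup. -/
def torSub (G : Type*) [AddCommGroup G] (n : ℕ) : AddSubgroup G :=
  (nsmulAddMonoidHom n : G →+ G).ker

theorem mem_torSub {G : Type*} [AddCommGroup G] {n : ℕ} {x : G} : x ∈ torSub G n ↔ n • x = 0 :=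
  Iff.rfl

theorem isClosed_torSub (G : Type*) [AddCommGroup G] [TopologicalSpace G]
    [IsTopologicalAddGroup G] [T2Space G] (n : ℕ) : IsClosed (torSub G n : Set G) := by
  have : (torSub G n : Set G) = (fun x => n • x) ⁻¹' {0} := by
    ext x; rfl
  rw [this]
  exact isClosed_singleton.preimage (continuous_nsmul n)

theorem torsionFree_of_primes {G : Type*} [AddCommGroup G]
    (h : ∀ p : ℕ, p.Prime → ∀ x : G, p • x = 0 → x = 0) (n : ℕ) :
    n ≠ 0 → ∀ x : G, n • x = 0 → x = 0 := by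
  induction n using induction_on_primes with
  | zero => intro h; exact absurd rfl h
  | one => intro _ x hx; rwa [one_smul] at hx
  | prime_mul p a hp ih =>
    intro hne x hx
    have ha : a ≠ 0 := by rintro rfl; exact hne (mul_zero _)
    rw [mul_smul] at hx
    exact ih ha x (h p hp _ hx)

omit [T2Space N] in
/-- Torsion of the completion of a minimal group lies in the group. -/
theorem tor_subset_range {C : Type} [AddCommGroup C] [TopologicalSpace C]
    [IsTopologicalAddGroup C] [T2Space C] (hN : IsMin N) (ι : N →+ C) (hι : IsEmbedding ι)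
    (hd : DenseRange ι) {p : ℕ} (hp : p.Prime) {x : C} (hx : p • x = 0) : ∃ n, ι n = x := by
  by_cases hx0 : x = 0
  · exact ⟨0, by rw [map_zero, hx0]⟩
  by_contra hcon
  push Not at hcon
  apply hx0
  have hfin : Finite (AddSubgroup.zmultiples x) := by
    have : IsOfFinAddOrder x := isOfFinAddOrder_iff_nsmul_eq_zero.2 ⟨p, hp.pos, hx⟩
    exact (finite_zmultiples).2 this |>.to_subtype
  have hL : IsClosed (AddSubgroup.zmultiples x : Set C) :=
    (Set.toFinite _).isClosed
  have := hN.essential ι hι hd (AddSubgroup.zmultiples x) hL (by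
    intro n hn
    obtain ⟨k, hk⟩ := AddSubgroup.mem_zmultiples_iff.1 hn
    by_cases hpk : (p : ℤ) ∣ k
    · obtain ⟨m, rfl⟩ := hpk
      rw [mul_comm, mul_smul, natCast_zsmul, hx, smul_zero] at hk
      apply hι.injective
      rw [← hk, map_zero]
    · exfalso
      have hcop : IsCoprime (p : ℤ) k :=
        (Prime.coprime_iff_not_dvd (Nat.prime_iff_prime_int.1 hp)).2 hpk
      obtain ⟨a, b, hab⟩ := hcop
      apply hcon (b • n)
      rw [map_zsmul, ← hk, smul_smul]
      have : b * k = 1 - a * p := by rw [← hab]; ring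
      rw [this, sub_smul, one_smul, mul_smul, natCast_zsmul, hx, smul_zero, sub_zero])
  have h2 : x ∈ AddSubgroup.zmultiples x := AddSubgroup.mem_zmultiples x
  rw [this] at h2
  exact (AddSubgroup.mem_bot).1 h2

/-- A minimal abelian group of tightness `≤ κ` is separated by `κ` neighbourhoods. -/
theorem IsMin.sep (hN : IsMin N) (κ : Cardinal.{0}) (hκ : Cardinal.aleph0 ≤ κ)
    (ht : Tight N κ) : Sep N κ := by
  classical
  obtain ⟨C, _, _, _, _, hCc, ι, hι, hd⟩ := exists_completion N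
  have hCmin : IsMin C := hN.of_dense ι hι hd
  -- the torsion subgroups
  have hexp : ∀ p : Nat.Primes, ∃ (I : Type) (V : I → Set N), Cardinal.mk I ≤ κ ∧
      (∀ i, V i ∈ 𝓝 (0 : N)) ∧ ∀ x : N, (p : ℕ) • x = 0 → (∀ i, x ∈ V i) → x = 0 := by
    rintro ⟨p, hp⟩
    have hCp : IsClosed (torSub C p : Set C) := isClosed_torSub C p
    have hCpmin : IsMin (torSub C p) := hCmin.isMin_subgroup _ hCp
    have hCpc : GComplete (torSub C p) := hCc.closed_subgroup _ hCp
    have hcomp : CompactSpace (torSub C p) := by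
      apply compactSpace_of_precompact _ hCpc
      apply hCpmin.precompact_of_exponent hp
      intro x
      exact Subtype.ext x.2
    have hcomp' : IsCompact (torSub C p : Set C) := isCompact_iff_compactSpace.2 hcomp
    have himg : ι '' (torSub N p : Set N) = (torSub C p : Set C) := by
      ext x
      constructor
      · rintro ⟨n, hn, rfl⟩
        show p • ι n = 0
        have : p • n = 0 := hn
        rw [← map_nsmul, this, map_zero]
      · intro hx
        have hx' : p • x = 0 := hx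
        obtain ⟨n, rfl⟩ := tor_subset_range hN ι hι hd hp hx'
        refine ⟨n, ?_, rfl⟩
        show p • n = 0
        apply hι.injective
        rw [map_nsmul, hx', map_zero]
    have hNcomp : IsCompact (torSub N p : Set N) := by
      rw [hι.isInducing.isCompact_iff, himg]
      exact hcomp'
    have : CompactSpace (torSub N p) := isCompact_iff_compactSpace.1 hNcomp
    obtain ⟨I, V, hI, hV, hsep⟩ := sep_of_tight_exponent (K := torSub N p) hp
      (fun x => Subtype.ext x.2) κ hκ (ht.of_inducing Subtype.val IsEmbedding.subtypeVal)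
    have hV' : ∀ i, ∃ U ∈ 𝓝 (0 : N), Subtype.val ⁻¹' U ⊆ V i := fun i =>
      (mem_nhds_subtype (torSub N p : Set N) 0 (V i)).1 (hV i)
    choose U hU hUV using hV'
    refine ⟨I, U, hI, hU, ?_⟩
    intro x hx hxU
    have := hsep ⟨x, hx⟩ (fun i => hUV i (hxU i))
    exact congrArg Subtype.val this
  choose I V hI hV hsepV using hexp
  have hhalf : ∀ (p : Nat.Primes) (i : I p), ∃ W : ℕ → Set N, Halving W ∧ W 0 ⊆ V p i :=
    fun p i => exists_halving (hV p i)
  choose W hW hWV using hhalf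
  let J : Type := Σ p : Nat.Primes, I p
  let H : AddSubgroup N := haloSub (fun j : J => W j.1 j.2) (fun j => hW j.1 j.2)
  have hHcl : IsClosed (H : Set N) := isClosed_haloSub _ _
  have hHtor : ∀ p : ℕ, p.Prime → ∀ x ∈ H, p • x = 0 → x = 0 := by
    intro p hp x hx hpx
    apply hsepV ⟨p, hp⟩ x hpx
    intro i
    exact hWV _ _ (hx ⟨⟨p, hp⟩, i⟩ 0)
  have hHmin : IsMin H := hN.isMin_subgroup H hHcl
  -- the closure of `H` in the completion
  let D : AddSubgroup C := (H.map ι).topologicalClosure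
  have hDcl : IsClosed (D : Set C) := (H.map ι).isClosed_topologicalClosure
  have hDmin : IsMin D := hCmin.isMin_subgroup D hDcl
  have hDc : GComplete D := hCc.closed_subgroup D hDcl
  have hDmem : ∀ n : N, ι n ∈ D → n ∈ H := by
    intro n hn
    have h1 : ι n ∈ closure (ι '' (H : Set N)) := hn
    have h2 : n ∈ closure (H : Set N) := by
      rw [hι.isInducing.closure_eq_preimage_closure_image]
      exact h1
    rwa [hHcl.closure_eq] at h2
  have hHD : ∀ n ∈ H, ι n ∈ D := fun n hn =>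
    (H.map ι).le_topologicalClosure ⟨n, hn, rfl⟩
  have hDtf : ∀ n : ℕ, n ≠ 0 → ∀ x : D, n • x = 0 → x = 0 := by
    apply torsionFree_of_primes
    intro p hp x hx
    have hx' : p • (x : C) = 0 := by
      have := congrArg Subtype.val hx
      simpa using this
    obtain ⟨n, hn⟩ := tor_subset_range hN ι hι hd hp hx'
    have hnH : n ∈ H := hDmem n (by rw [hn]; exact x.2)
    have hpn : p • n = 0 := by
      apply hι.injective
      rw [map_nsmul, hn, hx', map_zero]
    have : n = 0 := hHtor p hp n hnH hpn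
    apply Subtype.ext
    rw [← hn, this, map_zero]
    rfl
  have hDcomp : CompactSpace D := hDmin.compact_of_torsionFree hDc hDtf
  -- the embedding of `H` in `D`
  let j : H →+ D := (ι.comp H.subtype).codRestrict D (fun n => hHD n n.2)
  have hj : ∀ n : H, ((j n : D) : C) = ι n := fun n => rfl
  have hjemb : IsEmbedding j := by
    have h1 : IsEmbedding (fun n : H => ((j n : D) : C)) :=
      hι.comp IsEmbedding.subtypeVal
    exact IsEmbedding.of_comp (by
      apply Continuous.subtype_mk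
      exact hι.continuous.comp continuous_subtype_val) continuous_subtype_val h1
  have hjdense : DenseRange j := by
    intro x
    rw [closure_subtype]
    have hx : (x : C) ∈ closure (ι '' (H : Set N)) := x.2
    have : (Subtype.val '' range j : Set C) = ι '' (H : Set N) := by
      ext y
      constructor
      · rintro ⟨_, ⟨n, rfl⟩, rfl⟩
        exact ⟨n, n.2, rfl⟩
      · rintro ⟨n, hn, rfl⟩
        exact ⟨_, ⟨⟨n, hn⟩, rfl⟩, rfl⟩
    rwa [this]
  obtain ⟨I₂, V₂, hI₂, hV₂, hsep₂⟩ := sep_of_tight (C := D) hDtf j.range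
    (by
      intro L hL hLne
      by_contra hno
      push Not at hno
      apply hLne
      apply hHmin.essential j hjemb hjdense L hL
      intro n hn
      have := hno (j n) hn ⟨n, rfl⟩
      apply hjemb.injective
      rw [this, map_zero])
    κ hκ
    (by
      rintro A hA x ⟨n, rfl⟩ hx
      have hHt : Tight H κ := ht.of_inducing Subtype.val IsEmbedding.subtypeVal
      have hA' : j '' (j ⁻¹' A) = A := by
        apply image_preimage_eq_of_subset
        intro a ha
        exact hA ha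
      have hx' : n ∈ closure (j ⁻¹' A) := by
        rw [hjemb.isInducing.closure_eq_preimage_closure_image]
        show j n ∈ closure (j '' (j ⁻¹' A))
        rwa [hA']
      obtain ⟨B, hBA, hB, hnB⟩ := hHt _ _ hx'
      refine ⟨j '' B, ?_, le_trans Cardinal.mk_image_le hB, ?_⟩
      · rintro _ ⟨b, hb, rfl⟩; exact hBA hb
      · rw [hjemb.isInducing.closure_eq_preimage_closure_image] at hnB
        exact hnB)
  have hV₃ : ∀ i, ∃ U ∈ 𝓝 (0 : N), ∀ n : H, (n : N) ∈ U → j n ∈ V₂ i := by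
    intro i
    have h1 : j ⁻¹' (V₂ i) ∈ 𝓝 (0 : H) := by
      apply hjemb.continuous.continuousAt
      rw [map_zero]
      exact hV₂ i
    obtain ⟨U, hU, hUV⟩ := (mem_nhds_subtype (H : Set N) 0 _).1 h1
    exact ⟨U, hU, fun n hn => hUV hn⟩
  choose U₃ hU₃ hU₃V using hV₃
  refine ⟨(J × ℕ) ⊕ I₂, Sum.elim (fun q => W q.1.1 q.1.2 q.2) U₃, ?_, ?_, ?_⟩
  · have hJ : Cardinal.mk J ≤ κ := by
      rw [Cardinal.mk_sigma]
      refine le_trans (Cardinal.sum_le_sum _ (fun _ => κ) hI) ?_
      rw [Cardinal.sum_const']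
      refine le_trans (mul_le_mul_left (Cardinal.mk_le_aleph0 (α := Nat.Primes)) κ) ?_
      exact (Cardinal.aleph0_mul_eq hκ).le
    rw [← Cardinal.add_def, ← Cardinal.mul_def, Cardinal.mk_nat]
    refine le_trans (add_le_add (le_trans (mul_le_mul_left hJ _) (Cardinal.mul_aleph0_eq hκ).le) hI₂) ?_
    exact (Cardinal.add_eq_self hκ).le
  · rintro (q | i)
    · exact (hW q.1.1 q.1.2).1 q.2
    · exact hU₃ i
  · intro x hx
    have hxH : x ∈ H := fun j n => hx (Sum.inl (j, n))
    have h1 : j ⟨x, hxH⟩ = 0 := hsep₂ _ (fun i => hU₃V i ⟨x, hxH⟩ (hx (Sum.inr i)))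
    have h2 : (⟨x, hxH⟩ : H) = 0 := by
      apply hjemb.injective
      rw [h1, map_zero]
    exact congrArg Subtype.val h2

end

section
variable {G : Type} [AddCommGroup G] [τ : TopologicalSpace G] [IsTopologicalAddGroup G]

/-- A locally minimal abelian group of tightness `≤ κ` is separated by `κ` neighbourhoods. -/
theorem MinOn.sep [T2Space G] {U : Set G} (hU : U ∈ 𝓝 (0 : G)) (hmin : MinOn G U)
    (κ : Cardinal.{0}) (hκ : Cardinal.aleph0 ≤ κ) (ht : Tight G κ) : Sep G κ := by
  classical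
  obtain ⟨W, hW, hWU⟩ := exists_halving hU
  let N : AddSubgroup G := haloSub (fun _ : Unit => W) (fun _ => hW)
  have hNcl : IsClosed (N : Set G) := isClosed_haloSub _ _
  have hNmin : IsMin N := by
    apply hmin.isMin_subgroup N hNcl (hW.1 1)
    intro v hv n hn
    exact hWU (hW.2.2 0 v hv n (hn () 1))
  obtain ⟨I, V, hI, hV, hsep⟩ := hNmin.sep κ hκ
    (ht.of_inducing Subtype.val IsEmbedding.subtypeVal)
  have hV' : ∀ i, ∃ U ∈ 𝓝 (0 : G), Subtype.val ⁻¹' U ⊆ V i := fun i =>
    (mem_nhds_subtype (N : Set G) 0 (V i)).1 (hV i)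
  choose U' hU' hUV' using hV'
  refine ⟨ℕ ⊕ I, Sum.elim W U', ?_, ?_, ?_⟩
  · rw [← Cardinal.add_def, Cardinal.mk_nat]
    refine le_trans (add_le_add hκ hI) ?_
    exact (Cardinal.add_eq_self hκ).le
  · rintro (n | i)
    · exact hW.1 n
    · exact hU' i
  · intro x hx
    have hxN : x ∈ N := fun _ n => hx (Sum.inl n)
    have := hsep ⟨x, hxN⟩ (fun i => hUV' i (hx (Sum.inr i)))
    exact congrArg Subtype.val this

/-- A separated locally minimal group has a small base. -/
theorem MinOn.base {U : Set G} (hU : U ∈ 𝓝 (0 : G)) (hmin : MinOn G U)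
    (κ : Cardinal.{0}) (hκ : Cardinal.aleph0 ≤ κ) (hs : Sep G κ) :
    ∃ 𝓑 : Set (Set G), (𝓝 (0 : G)).HasBasis (fun s => s ∈ 𝓑) id ∧ Cardinal.mk 𝓑 ≤ κ := by
  classical
  obtain ⟨I, V, hI, hV, hsep⟩ := hs
  have hhalf : ∀ i : Option I, ∃ W : ℕ → Set G, Halving W ∧ W 0 ⊆ (i.elim U V) := by
    intro i
    apply exists_halving
    cases i with
    | none => exact hU
    | some i => exact hV i
  choose W hW hWV using hhalf
  have hWanti : ∀ i n, W i (n + 1) ⊆ W i n := by
    intro i n x hx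
    have := (hW i).2.2 n x hx 0 (mem_of_mem_nhds ((hW i).1 _))
    rwa [add_zero] at this
  have hWmono : ∀ i m n, m ≤ n → W i n ⊆ W i m := fun i m n hmn =>
    antitone_nat_of_succ_le (f := W i) (fun n => hWanti i n) hmn
  let S : Finset (Option I) × ℕ → Set G := fun q => {x | ∀ i ∈ q.1, x ∈ W i q.2}
  have hSn : ∀ q, S q ∈ 𝓝 (0 : G) := by
    intro q
    have : S q = ⋂ i ∈ q.1, W i q.2 := by
      ext x; simp [S]
    rw [this, biInter_finset_mem]
    intro i _
    exact (hW i).1 _
  have hSadd : ∀ F n, ∀ x ∈ S (F, n + 1), ∀ y ∈ S (F, n + 1), x + y ∈ S (F, n) := by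
    intro F n x hx y hy i hi
    exact (hW i).2.2 n x (hx i hi) y (hy i hi)
  have key := hmin.key S (fun q => mem_of_mem_nhds (hSn q))
    (fun q x hx i hi => (hW i).2.1 _ _ (hx i hi))
    (fun q => ⟨(q.1, q.2 + 1), hSadd q.1 q.2⟩)
    (by
      rintro ⟨F, m⟩ ⟨F', m'⟩
      refine ⟨(F ∪ F', max m m'), ?_, ?_⟩
      · intro x hx i hi
        exact hWmono i _ _ (le_max_left _ _) (hx i (Finset.mem_union_left _ hi))
      · intro x hx i hi
        exact hWmono i _ _ (le_max_right _ _) (hx i (Finset.mem_union_right _ hi)))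
    (by
      intro g hg
      apply hsep
      intro i
      obtain ⟨v, hv, s, hs, rfl⟩ := hg _ (hSn ({some i}, 1)) ({some i}, 1)
      have := hSadd {some i} 0 v hv s hs (some i) (Finset.mem_singleton_self _)
      exact hWV (some i) this)
    ⟨_, hSn ({none}, 1), ({none}, 1), by
      intro v hv s hs
      have := hSadd {none} 0 v hv s hs none (Finset.mem_singleton_self _)
      exact hWV none this⟩
  refine ⟨range S, ?_, ?_⟩
  · refine ⟨fun A => ⟨fun hA => ?_, ?_⟩⟩
    · obtain ⟨V', hV', q, hq⟩ := key A hA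
      refine ⟨S q, mem_range_self q, ?_⟩
      intro s hs
      have := hq 0 (mem_of_mem_nhds hV') s hs
      rwa [zero_add] at this
    · rintro ⟨_, ⟨q, rfl⟩, hq⟩
      exact mem_of_superset (hSn q) hq
  · refine le_trans Cardinal.mk_range_le ?_
    rw [← Cardinal.mul_def, Cardinal.mk_nat]
    have h1 : Cardinal.mk (Option I) ≤ κ := by
      rw [Cardinal.mk_option]
      refine le_trans (add_le_add hI (Cardinal.one_le_aleph0.trans hκ)) ?_
      exact (Cardinal.add_eq_self hκ).le
    have h2 : Cardinal.mk (Finset (Option I)) ≤ κ := by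
      have : Cardinal.mk (Finset (Option I)) ≤ Cardinal.mk (List (Option I)) :=
        Cardinal.mk_le_of_surjective (f := List.toFinset) (List.toFinset_surjective)
      refine le_trans this (le_trans (Cardinal.mk_list_le_max _) ?_)
      exact max_le hκ h1
    refine le_trans (mul_le_mul_left h2 _) ?_
    exact (Cardinal.mul_aleph0_eq hκ).le

omit [IsTopologicalAddGroup G] in
/-- Finite tightness forces discreteness. -/
theorem discrete_of_tight [T2Space G] (κ : Cardinal.{0}) (hκ : κ < Cardinal.aleph0)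
    (ht : Tight G κ) : {0} ∈ 𝓝 (0 : G) := by
  have : IsClosed ({0}ᶜ : Set G) := by
    rw [← closure_subset_iff_isClosed]
    intro x hx
    obtain ⟨B, hB, hBκ, hxB⟩ := ht _ x hx
    have hBf : B.Finite := by
      rw [← Cardinal.lt_aleph0_iff_set_finite]
      exact lt_of_le_of_lt hBκ hκ
    rw [hBf.isClosed.closure_eq] at hxB
    exact hB hxB
  have h2 : IsOpen ({0} : Set G) := by
    rw [← compl_compl ({0} : Set G)]
    exact this.isOpen_compl
  exact h2.mem_nhds rfl

theorem tight_of_base {κ : Cardinal.{0}} {𝓑 : Set (Set G)}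
    (h𝓑 : (𝓝 (0 : G)).HasBasis (fun s => s ∈ 𝓑) id) (hκ : Cardinal.mk 𝓑 ≤ κ) : Tight G κ := by
  classical
  intro A x hx
  have h1 : ∀ s : 𝓑, ∃ a ∈ A, a - x ∈ (s : Set G) := by
    intro s
    rw [mem_closure_iff_nhds_zero] at hx
    obtain ⟨a, ha, h⟩ := hx s (h𝓑.mem_of_mem s.2)
    exact ⟨a, ha, h⟩
  choose a ha hax using h1
  refine ⟨range a, ?_, le_trans Cardinal.mk_range_le hκ, ?_⟩
  · rintro _ ⟨s, rfl⟩; exact ha s
  · rw [mem_closure_iff_nhds_zero]
    intro V hV
    obtain ⟨s, hs, hsV⟩ := h𝓑.mem_iff.1 hV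
    exact ⟨a ⟨s, hs⟩, mem_range_self _, hsV (hax ⟨s, hs⟩)⟩

/-- Tightness equals character (additive form). -/
theorem tight_eq_char [T2Space G] {U : Set G} (hU : U ∈ 𝓝 (0 : G)) (hmin : MinOn G U) :
    sInf {κ : Cardinal.{0} | Tight G κ}
      = sInf {κ : Cardinal | ∃ 𝓑 : Set (Set G),
        (𝓝 (0 : G)).HasBasis (fun s => s ∈ 𝓑) id ∧ Cardinal.mk 𝓑 = κ} := by
  have hne : {κ : Cardinal | ∃ 𝓑 : Set (Set G),
      (𝓝 (0 : G)).HasBasis (fun s => s ∈ 𝓑) id ∧ Cardinal.mk 𝓑 = κ}.Nonempty := by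
    refine ⟨_, {s | s ∈ 𝓝 (0 : G)}, ?_, rfl⟩
    exact (𝓝 (0 : G)).basis_sets
  have hsub : ∀ κ, κ ∈ {κ : Cardinal | ∃ 𝓑 : Set (Set G),
      (𝓝 (0 : G)).HasBasis (fun s => s ∈ 𝓑) id ∧ Cardinal.mk 𝓑 = κ} → Tight G κ := by
    rintro κ ⟨𝓑, h𝓑, rfl⟩
    exact tight_of_base h𝓑 le_rfl
  apply le_antisymm
  · exact csInf_le' (hsub _ (csInf_mem hne))
  · have ht : Tight G (sInf {κ : Cardinal.{0} | Tight G κ}) :=
      csInf_mem (s := {κ : Cardinal.{0} | Tight G κ}) (hne.mono hsub)
    set t := sInf {κ : Cardinal.{0} | Tight G κ} with htdef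
    by_cases hκ : Cardinal.aleph0 ≤ t
    · obtain ⟨𝓑, h𝓑, hcard⟩ := hmin.base hU t hκ (hmin.sep hU t hκ ht)
      exact le_trans (csInf_le' ⟨𝓑, h𝓑, rfl⟩) hcard
    · have hd := discrete_of_tight t (not_le.1 hκ) ht
      have h1 : sInf {κ : Cardinal | ∃ 𝓑 : Set (Set G),
          (𝓝 (0 : G)).HasBasis (fun s => s ∈ 𝓑) id ∧ Cardinal.mk 𝓑 = κ} ≤ 1 := by
        apply csInf_le'
        refine ⟨{{0}}, ?_, Cardinal.mk_singleton _⟩
        refine ⟨fun A => ⟨fun hA => ⟨{0}, rfl, ?_⟩, ?_⟩⟩
        · rintro _ rfl; exact mem_of_mem_nhds hA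
        · rintro ⟨_, rfl, h⟩
          exact mem_of_superset hd h
      refine le_trans h1 ?_
      obtain ⟨B, hB, hBt, h0B⟩ := ht {0} 0 (subset_closure rfl)
      have hBne : B.Nonempty := by
        rw [nonempty_iff_ne_empty]
        rintro rfl
        rw [closure_empty] at h0B
        exact h0B
      have : 1 ≤ Cardinal.mk B := by
        rw [Cardinal.one_le_iff_ne_zero]
        exact Cardinal.mk_ne_zero_iff.2 hBne.to_subtype
      exact le_trans this hBt

end

end Pool.Agent.Helper21.LM
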