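import Mathlib

set_option autoImplicit false

/-!
# Minimal and locally minimal abelian topological groups: basic tools
-/

open Topology Filter Set

namespace Pool.Agent.Helper21.LM

/-- `U`-local minimality of a topological abelian group (additive notation). -/
def MinOn (G : Type*) [AddCommGroup G] [τ : TopologicalSpace G] (U : Set G) : Prop :=
  ∀ σ : TopologicalSpace G, @IsTopologicalAddGroup G σ _ → @T2Space G σ → τ ≤ σ →
    U ∈ @nhds G σ 0 → σ = τ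

/-- Minimality of a topological abelian group (additive notation). -/
def IsMin (G : Type*) [AddCommGroup G] [τ : TopologicalSpace G] : Prop :=
  ∀ σ : TopologicalSpace G, @IsTopologicalAddGroup G σ _ → @T2Space G σ → τ ≤ σ → σ = τ

theorem IsMin.minOn {G : Type*} [AddCommGroup G] [TopologicalSpace G] (h : IsMin G) :
    MinOn G univ := fun σ h1 h2 h3 _ => h σ h1 h2 h3

theorem le_of_nhds_zero {G : Type*} [AddCommGroup G] {τ σ : TopologicalSpace G}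
    (hτ : @IsTopologicalAddGroup G τ _) (hσ : @IsTopologicalAddGroup G σ _)
    (h : @nhds G τ 0 ≤ @nhds G σ 0) : τ ≤ σ := by
  apply le_of_nhds_le_nhds
  intro x
  have h1 : @nhds G τ x = map (x + ·) (@nhds G τ 0) := by
    let _ := τ
    exact (map_add_left_nhds_zero x).symm
  have h2 : @nhds G σ x = map (x + ·) (@nhds G σ 0) := by
    let _ := σ
    exact (map_add_left_nhds_zero x).symm
  rw [h1, h2]
  exact map_mono h

section
variable {G : Type*} [AddCommGroup G] [τ : TopologicalSpace G] [IsTopologicalAddGroup G]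

/-- Symmetric halving of neighbourhoods. -/
theorem exists_half {V : Set G} (hV : V ∈ 𝓝 (0 : G)) :
    ∃ W ∈ 𝓝 (0 : G), (∀ x ∈ W, -x ∈ W) ∧ (∀ x ∈ W, ∀ y ∈ W, x + y ∈ V) ∧ W ⊆ V := by
  obtain ⟨W, hW, hWV⟩ := exists_nhds_zero_half hV
  have h1 : (-W) ∈ 𝓝 (0 : G) := by
    have := neg_mem_nhds_zero G hW
    exact this
  refine ⟨W ∩ -W, inter_mem hW h1, ?_, ?_, ?_⟩
  · rintro x ⟨hx1, hx2⟩
    exact ⟨hx2, by simpa using hx1⟩
  · rintro x ⟨hx, _⟩ y ⟨hy, _⟩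
    exact hWV x hx y hy
  · rintro x ⟨hx, _⟩
    have := hWV x hx 0 (mem_of_mem_nhds hW)
    simpa using this

/-- The group topology with neighbourhoods of zero `V + S i`. -/
theorem exists_topology {ι : Type*} [Nonempty ι] (S : ι → Set G) (h0 : ∀ i, (0 : G) ∈ S i)
    (hneg : ∀ i, ∀ x ∈ S i, -x ∈ S i) (hadd : ∀ i, ∃ j, ∀ x ∈ S j, ∀ y ∈ S j, x + y ∈ S i)
    (hdir : ∀ i j, ∃ k, S k ⊆ S i ∧ S k ⊆ S j) :
    ∃ σ : TopologicalSpace G, @IsTopologicalAddGroup G σ _ ∧ τ ≤ σ ∧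
      ∀ A : Set G, A ∈ @nhds G σ 0 ↔ ∃ V ∈ @nhds G τ 0, ∃ i, ∀ v ∈ V, ∀ s ∈ S i, v + s ∈ A := by
  let B : AddGroupFilterBasis G :=
    { sets := {A | ∃ V ∈ 𝓝 (0 : G), ∃ i, A = {x | ∃ v ∈ V, ∃ s ∈ S i, x = v + s}}
      nonempty := ⟨_, univ, univ_mem, Classical.arbitrary ι, rfl⟩
      inter_sets := by
        rintro _ _ ⟨V, hV, i, rfl⟩ ⟨W, hW, j, rfl⟩
        obtain ⟨k, hki, hkj⟩ := hdir i j
        refine ⟨_, ⟨V ∩ W, inter_mem hV hW, k, rfl⟩, ?_⟩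
        rintro _ ⟨v, hv, s, hs, rfl⟩
        exact ⟨⟨v, hv.1, s, hki hs, rfl⟩, ⟨v, hv.2, s, hkj hs, rfl⟩⟩
      zero' := by
        rintro _ ⟨V, hV, i, rfl⟩
        exact ⟨0, mem_of_mem_nhds hV, 0, h0 i, by simp⟩
      add' := by
        rintro _ ⟨V, hV, i, rfl⟩
        obtain ⟨W, hW, _, hWV, _⟩ := exists_half hV
        obtain ⟨j, hj⟩ := hadd i
        refine ⟨_, ⟨W, hW, j, rfl⟩, ?_⟩
        rintro _ ⟨_, ⟨v, hv, s, hs, rfl⟩, _, ⟨w, hw, t, ht, rfl⟩, rfl⟩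
        refine ⟨v + w, hWV v hv w hw, s + t, hj s hs t ht, ?_⟩
        show v + s + (w + t) = v + w + (s + t)
        abel
      neg' := by
        rintro _ ⟨V, hV, i, rfl⟩
        obtain ⟨W, hW, hWs, _, hWV⟩ := exists_half hV
        refine ⟨_, ⟨W, hW, i, rfl⟩, ?_⟩
        rintro _ ⟨v, hv, s, hs, rfl⟩
        exact ⟨-v, hWV (hWs v hv), -s, hneg i s hs, by show -(v + s) = -v + -s; abel⟩
      conj' := by
        rintro x A hA
        refine ⟨A, hA, ?_⟩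
        intro y hy
        show x + y + -x ∈ A
        have : x + y + -x = y := by abel
        rwa [this] }
  have hbasis : ∀ A : Set G, A ∈ @nhds G B.topology 0 ↔
      ∃ V ∈ 𝓝 (0 : G), ∃ i, ∀ v ∈ V, ∀ s ∈ S i, v + s ∈ A := by
    intro A
    rw [(B.nhds_zero_hasBasis).mem_iff]
    constructor
    · rintro ⟨_, ⟨V, hV, i, rfl⟩, hA⟩
      exact ⟨V, hV, i, fun v hv s hs => hA ⟨v, hv, s, hs, rfl⟩⟩
    · rintro ⟨V, hV, i, h⟩
      refine ⟨_, ⟨V, hV, i, rfl⟩, ?_⟩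
      rintro _ ⟨v, hv, s, hs, rfl⟩
      exact h v hv s hs
  refine ⟨B.topology, B.isTopologicalAddGroup, ?_, hbasis⟩
  apply le_of_nhds_zero inferInstance B.isTopologicalAddGroup
  intro A hA
  obtain ⟨V, hV, i, h⟩ := (hbasis A).1 hA
  refine mem_of_superset hV ?_
  intro v hv
  have := h v hv 0 (h0 i)
  simpa using this

omit τ [IsTopologicalAddGroup G] in
theorem t2_of_zero_sep {σ : TopologicalSpace G} (hσ : @IsTopologicalAddGroup G σ _)
    (h : ∀ x : G, (∀ A ∈ @nhds G σ 0, x ∈ A) → x = 0) : @T2Space G σ := by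
  let _ := σ
  apply IsTopologicalAddGroup.t2Space_of_zero_sep
  intro x hx
  by_contra hcon
  push Not at hcon
  exact hx (h x hcon)

/-- Key consequence of (local) minimality. -/
theorem MinOn.key {U : Set G} (hU : MinOn G U) {ι : Type*} [Nonempty ι]
    (S : ι → Set G) (h0 : ∀ i, (0 : G) ∈ S i)
    (hneg : ∀ i, ∀ x ∈ S i, -x ∈ S i) (hadd : ∀ i, ∃ j, ∀ x ∈ S j, ∀ y ∈ S j, x + y ∈ S i)
    (hdir : ∀ i j, ∃ k, S k ⊆ S i ∧ S k ⊆ S j)
    (hT2 : ∀ g : G, (∀ V ∈ 𝓝 (0 : G), ∀ i, ∃ v ∈ V, ∃ s ∈ S i, g = v + s) → g = 0)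
    (hUS : ∃ V ∈ 𝓝 (0 : G), ∃ i, ∀ v ∈ V, ∀ s ∈ S i, v + s ∈ U) :
    ∀ V ∈ 𝓝 (0 : G), ∃ W ∈ 𝓝 (0 : G), ∃ i, ∀ w ∈ W, ∀ s ∈ S i, w + s ∈ V := by
  obtain ⟨σ, hσ, hle, hn⟩ := exists_topology S h0 hneg hadd hdir
  have hT : @T2Space G σ := by
    apply t2_of_zero_sep hσ
    intro g hg
    refine hT2 g ?_
    intro V hV i
    have : {x | ∃ v ∈ V, ∃ s ∈ S i, x = v + s} ∈ @nhds G σ 0 :=
      (hn _).2 ⟨V, hV, i, fun v hv s hs => ⟨v, hv, s, hs, rfl⟩⟩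
    exact hg _ this
  have heq := hU σ hσ hT hle ((hn U).2 hUS)
  intro V hV
  have hV' : V ∈ @nhds G σ 0 := by rw [heq]; exact hV
  exact (hn V).1 hV'

theorem IsMin.key (hG : IsMin G) {ι : Type*} [Nonempty ι]
    (S : ι → Set G) (h0 : ∀ i, (0 : G) ∈ S i)
    (hneg : ∀ i, ∀ x ∈ S i, -x ∈ S i) (hadd : ∀ i, ∃ j, ∀ x ∈ S j, ∀ y ∈ S j, x + y ∈ S i)
    (hdir : ∀ i j, ∃ k, S k ⊆ S i ∧ S k ⊆ S j)
    (hT2 : ∀ g : G, (∀ V ∈ 𝓝 (0 : G), ∀ i, ∃ v ∈ V, ∃ s ∈ S i, g = v + s) → g = 0) :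
    ∀ V ∈ 𝓝 (0 : G), ∃ i, S i ⊆ V := by
  intro V hV
  obtain ⟨W, hW, i, hi⟩ := hG.minOn.key S h0 hneg hadd hdir hT2
    ⟨univ, univ_mem, Classical.arbitrary ι, fun _ _ _ _ => mem_univ _⟩ V hV
  refine ⟨i, fun s hs => ?_⟩
  have := hi 0 (mem_of_mem_nhds hW) s hs
  simpa using this

/-- Closed subgroups contained deeply in `U` are minimal. -/
theorem MinOn.isMin_subgroup {U : Set G} (hU : MinOn G U) (N : AddSubgroup G)
    (hN : IsClosed (N : Set G)) {V₀ : Set G} (hV₀ : V₀ ∈ 𝓝 (0 : G))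
    (hNU : ∀ v ∈ V₀, ∀ n ∈ N, v + n ∈ U) : IsMin N := by
  have hNtop : IsTopologicalAddGroup N := inferInstance
  intro σ hσ hT hle
  have hcl : ∀ (A : Set N), A ∈ @nhds N σ 0 → ∃ B : Set N, B ∈ @nhds N σ 0 ∧ (∀ x ∈ B, -x ∈ B) ∧
      (∀ x ∈ B, ∀ y ∈ B, x + y ∈ A) ∧ B ⊆ A := by
    intro A hA
    let _ := σ
    exact exists_half hA
  -- the sets
  let ι := {A : Set N // A ∈ @nhds N σ 0 ∧ ∀ x ∈ A, -x ∈ A}
  have : Nonempty ι := ⟨⟨univ, univ_mem, fun _ _ => mem_univ _⟩⟩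
  let S : ι → Set G := fun A => Subtype.val '' A.1
  have hzero : ∀ A : ι, (0 : N) ∈ A.1 := by
    intro A
    let _ := σ
    exact mem_of_mem_nhds A.2.1
  have key := hU.key S (fun A => ⟨0, hzero A, rfl⟩)
    (by rintro A _ ⟨x, hx, rfl⟩; exact ⟨-x, A.2.2 x hx, rfl⟩)
    (by
      intro A
      obtain ⟨B, hB, hBs, hBA, _⟩ := hcl A.1 A.2.1
      refine ⟨⟨B, hB, hBs⟩, ?_⟩
      rintro _ ⟨x, hx, rfl⟩ _ ⟨y, hy, rfl⟩
      exact ⟨x + y, hBA x hx y hy, rfl⟩)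
    (by
      intro A B
      refine ⟨⟨A.1 ∩ B.1, inter_mem A.2.1 B.2.1, fun x hx => ⟨A.2.2 x hx.1, B.2.2 x hx.2⟩⟩, ?_, ?_⟩
      · rintro _ ⟨x, hx, rfl⟩; exact ⟨x, hx.1, rfl⟩
      · rintro _ ⟨x, hx, rfl⟩; exact ⟨x, hx.2, rfl⟩)
    (by
      intro g hg
      -- `g ∈ N`
      have hgN : g ∈ N := by
        have : g ∈ closure (N : Set G) := by
          rw [mem_closure_iff_nhds_zero]
          intro V hV
          obtain ⟨W, hW, hWs, _, hWV⟩ := exists_half hV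
          obtain ⟨v, hv, _, ⟨n, _, rfl⟩, rfl⟩ := hg W hW (Classical.arbitrary ι)
          refine ⟨n, n.2, ?_⟩
          have : (n : G) - (v + n) = -v := by abel
          rw [this]
          exact hWV (hWs v hv)
        rwa [hN.closure_eq] at this
      -- use that `σ` is Hausdorff
      suffices h : (⟨g, hgN⟩ : N) = 0 by
        have := congrArg Subtype.val h
        exact this
      have hmem : ∀ A ∈ @nhds N σ 0, (⟨g, hgN⟩ : N) ∈ A := by
        intro A hA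
        obtain ⟨B, hB, hBs, hBA, _⟩ := hcl A hA
        have hB' : B ∈ @nhds N instTopologicalSpaceSubtype 0 := by
          have h1 : @nhds N instTopologicalSpaceSubtype 0 ≤ @nhds N σ 0 := _root_.nhds_mono hle
          exact h1 hB
        obtain ⟨V, hV, hVB⟩ := (mem_nhds_subtype (N : Set G) 0 B).1 hB'
        obtain ⟨v, hv, _, ⟨n, hn, rfl⟩, hgv⟩ := hg V hV ⟨B, hB, hBs⟩
        have hvN : v ∈ N := by
          have : v = g - n := by rw [hgv]; abel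
          rw [this]; exact N.sub_mem hgN n.2
        have hvB : (⟨v, hvN⟩ : N) ∈ B := hVB hv
        have : (⟨g, hgN⟩ : N) = ⟨v, hvN⟩ + n := Subtype.ext hgv
        rw [this]
        exact hBA _ hvB _ hn
      let _ := σ
      by_contra hne
      obtain ⟨A, B, hA, hB, h1, h2, h3⟩ := hT.t2 hne
      exact (disjoint_left.1 h3) (hmem B (hB.mem_nhds h2) |> fun _ => h1)
        (hmem B (hB.mem_nhds h2)))
    ⟨V₀, hV₀, Classical.arbitrary ι, by
      rintro v hv _ ⟨n, _, rfl⟩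
      exact hNU v hv n n.2⟩
  -- conclusion
  apply le_antisymm _ hle
  apply le_of_nhds_zero hσ (τ := σ) (σ := instTopologicalSpaceSubtype) (hNtop)
  intro A hA
  obtain ⟨V, hV, hVA⟩ := (mem_nhds_subtype (N : Set G) 0 A).1 hA
  obtain ⟨W, hW, B, hB⟩ := key V hV
  refine mem_of_superset B.2.1 ?_
  intro n hn
  apply hVA
  have := hB 0 (mem_of_mem_nhds hW) n ⟨n, hn, rfl⟩
  simpa using this

theorem IsMin.isMin_subgroup (hG : IsMin G) (N : AddSubgroup G)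
    (hN : IsClosed (N : Set G)) : IsMin N :=
  hG.minOn.isMin_subgroup N hN univ_mem (fun _ _ _ _ => mem_univ _)

end

end Pool.Agent.Helper21.LM
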