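import Pool.Agent.Helper21.LM.Seq

set_option autoImplicit false

/-!
# Completeness, precompactness, completions and essential subgroups
-/

open Topology Filter Set

namespace Pool.Agent.Helper21.LM

/-- Completeness of a topological abelian group, expressed with ultrafilters. -/
def GComplete (G : Type*) [AddCommGroup G] [TopologicalSpace G] : Prop :=
  ∀ 𝒰 : Ultrafilter G, (∀ V ∈ 𝓝 (0 : G), ∃ g : G, {x | x - g ∈ V} ∈ 𝒰) →
    ∃ x, (𝒰 : Filter G) ≤ 𝓝 x

/-- Precompactness. -/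
def Precompact (G : Type*) [AddCommGroup G] [TopologicalSpace G] : Prop :=
  ∀ U ∈ 𝓝 (0 : G), ∃ F : Set G, F.Finite ∧ ∀ x : G, ∃ f ∈ F, x - f ∈ U

section
variable {G : Type*} [AddCommGroup G] [τ : TopologicalSpace G] [IsTopologicalAddGroup G]

omit [IsTopologicalAddGroup G] in
theorem compactSpace_of_precompact (h1 : Precompact G) (h2 : GComplete G) : CompactSpace G := by
  refine ⟨isCompact_iff_ultrafilter_le_nhds.2 fun 𝒰 _ => ?_⟩
  obtain ⟨x, hx⟩ := h2 𝒰 (by
    intro V hV
    obtain ⟨F, hF, hFV⟩ := h1 V hV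
    by_contra hcon
    push Not at hcon
    have : (⋂ f ∈ F, {x | x - f ∈ V}ᶜ) ∈ 𝒰 := by
      rw [← Ultrafilter.mem_coe, biInter_mem hF]
      intro f _
      exact Ultrafilter.compl_mem_iff_notMem.2 (hcon f)
    obtain ⟨x, hx⟩ := 𝒰.nonempty_of_mem this
    obtain ⟨f, hf, hxf⟩ := hFV x
    exact mem_iInter₂.1 hx f hf hxf)
  exact ⟨x, mem_univ x, hx⟩

omit [IsTopologicalAddGroup G] in
theorem GComplete.closed_subgroup (h : GComplete G) (N : AddSubgroup G)
    (hN : IsClosed (N : Set G)) : GComplete N := by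
  intro 𝒰 h𝒰
  obtain ⟨x, hx⟩ := h (𝒰.map (Subtype.val : N → G)) (by
    intro V hV
    obtain ⟨g, hg⟩ := h𝒰 (Subtype.val ⁻¹' V) (continuous_subtype_val.continuousAt hV)
    refine ⟨g, ?_⟩
    rw [Ultrafilter.mem_map]
    exact hg)
  have hxN : x ∈ N := by
    have h1 : (N : Set G) ∈ 𝒰.map (Subtype.val : N → G) := by
      rw [Ultrafilter.mem_map]
      have : (Subtype.val ⁻¹' (N : Set G) : Set N) = univ := by
        ext y; simp
      rw [this]
      exact univ_mem
    have h2 : x ∈ closure (N : Set G) := mem_closure_iff_ultrafilter.2 ⟨_, h1, hx⟩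
    rwa [hN.closure_eq] at h2
  refine ⟨⟨x, hxN⟩, ?_⟩
  rw [nhds_subtype_eq_comap]
  exact map_le_iff_le_comap.1 hx

theorem induced_aux {G N : Type*} [AddCommGroup G] [AddCommGroup N] [TopologicalSpace G]
    [IsTopologicalAddGroup G] [T2Space G] (ι : N →+ G) (hι : Function.Injective ι) :
    @IsTopologicalAddGroup N (TopologicalSpace.induced ι inferInstance) _ ∧
      @T2Space N (TopologicalSpace.induced ι inferInstance) := by
  constructor
  · exact topologicalAddGroup_induced ι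
  · let _ := TopologicalSpace.induced ι (inferInstance : TopologicalSpace G)
    exact T2Space.of_injective_continuous hι continuous_induced_dom

theorem of_dense_core {N : Type*} [AddCommGroup N] (ι : N →+ G) (hd : DenseRange ι)
    {O V W : Set G} (hO : IsOpen O) (hW : W ∈ 𝓝 (0 : G)) (hWs : ∀ x ∈ W, -x ∈ W)
    (hWV : ∀ x ∈ W, ∀ y ∈ W, x + y ∈ V) (h : ∀ n, ι n ∈ O → ι n ∈ W) : O ⊆ V := by
  intro x hx
  have hOx : O ∩ {y | y - x ∈ W} ∈ 𝓝 x := by
    apply inter_mem (hO.mem_nhds hx)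
    have : ContinuousAt (fun y : G => y - x) x := by fun_prop
    apply this
    show W ∈ 𝓝 (x - x)
    rwa [sub_self]
  obtain ⟨_, ⟨hy1, hy2⟩, n, rfl⟩ := mem_closure_iff_nhds.1 (hd x) _ hOx
  have := hWV _ (h n hy1) _ (hWs _ hy2)
  have h' : ι n + -(ι n - x) = x := by abel
  rwa [h'] at this

/-- If `N` is dense in `G` and minimal, then `G` is minimal. -/
theorem IsMin.of_dense {N : Type*} [AddCommGroup N] [TopologicalSpace N]
    [IsTopologicalAddGroup N] (hN : IsMin N) (ι : N →+ G) (hι : IsEmbedding ι)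
    (hd : DenseRange ι) : IsMin G := by
  have hGtop : IsTopologicalAddGroup G := inferInstance
  have hind := hι.eq_induced
  have hpre : ∀ W ∈ 𝓝 (0 : G), ι ⁻¹' W ∈ 𝓝 (0 : N) := by
    intro W hW
    apply hι.continuous.continuousAt
    rwa [map_zero]
  have hinj := hι.injective
  clear hι
  intro σ hσ hT hle
  apply le_antisymm _ hle
  apply le_of_nhds_zero hσ (τ := σ) (σ := τ) hGtop
  obtain ⟨hσN, hTN⟩ := @induced_aux G N _ _ σ hσ hT ι hinj
  have hleN : (inferInstance : TopologicalSpace N) ≤ TopologicalSpace.induced ι σ := by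
    rw [hind]
    exact induced_mono hle
  have heq := hN _ hσN hTN hleN
  intro V hV
  obtain ⟨W, hW, hWs, hWV, _⟩ := @exists_half G _ τ hGtop V hV
  have h1 := hpre W hW
  have h2 : ι ⁻¹' W ∈ @nhds N (TopologicalSpace.induced ι σ) 0 := by rw [heq]; exact h1
  rw [@nhds_induced _ _ σ ι 0, map_zero] at h2
  obtain ⟨W', hW', hWW'⟩ := h2
  obtain ⟨O, hOW, hO, h0O⟩ := (@mem_nhds_iff _ σ _ _).1 hW'
  refine (@mem_nhds_iff _ σ _ _).2 ⟨O, ?_, hO, h0O⟩
  exact @of_dense_core G _ τ hGtop N _ ι hd O V W (hle O hO) hW hWs hWV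
    (fun n hn => hWW' (hOW hn))

/-- If `N` is dense in `G` and minimal, then `N` is essential in `G`. -/
theorem IsMin.essential [T2Space G] {N : Type*} [AddCommGroup N] [TopologicalSpace N]
    [IsTopologicalAddGroup N] (hN : IsMin N) (ι : N →+ G) (hι : IsEmbedding ι)
    (hd : DenseRange ι) (L : AddSubgroup G) (hL : IsClosed (L : Set G))
    (hLN : ∀ n, ι n ∈ L → n = 0) : L = ⊥ := by
  let I := {V : Set G // V ∈ 𝓝 (0 : G) ∧ ∀ x ∈ V, -x ∈ V}
  have : Nonempty I := ⟨⟨univ, univ_mem, fun _ _ => mem_univ _⟩⟩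
  let S : I → Set N := fun V => {n | ∃ v ∈ V.1, ∃ l ∈ L, ι n = v + l}
  have hS := hN.key S
    (by rintro ⟨V, hV, _⟩
        exact ⟨0, mem_of_mem_nhds hV, 0, L.zero_mem, by simp⟩)
    (by rintro ⟨V, hV, hVs⟩ n ⟨v, hv, l, hl, h⟩
        exact ⟨-v, hVs v hv, -l, L.neg_mem hl, by rw [map_neg, h]; abel⟩)
    (by rintro ⟨V, hV, hVs⟩
        obtain ⟨W, hW, hWs, hWV, _⟩ := exists_half hV
        refine ⟨⟨W, hW, hWs⟩, ?_⟩
        rintro a ⟨v, hv, l, hl, h⟩ b ⟨w, hw, m, hm, h'⟩
        exact ⟨v + w, hWV v hv w hw, l + m, L.add_mem hl hm, by rw [map_add, h, h']; abel⟩)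
    (by rintro ⟨V, hV, hVs⟩ ⟨W, hW, hWs⟩
        refine ⟨⟨V ∩ W, inter_mem hV hW, fun x hx => ⟨hVs x hx.1, hWs x hx.2⟩⟩, ?_, ?_⟩
        · rintro a ⟨v, hv, l, hl, h⟩
          exact ⟨v, hv.1, l, hl, h⟩
        · rintro a ⟨v, hv, l, hl, h⟩
          exact ⟨v, hv.2, l, hl, h⟩)
    (by intro g hg
        apply hLN
        have : ι g ∈ closure (L : Set G) := by
          rw [mem_closure_iff_nhds_zero]
          intro V hV
          obtain ⟨W, hW, hWs, hWV, _⟩ := exists_half hV
          have h1 : ι ⁻¹' W ∈ 𝓝 (0 : N) := by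
            apply hι.continuous.continuousAt
            rwa [map_zero]
          obtain ⟨v, hv, s, ⟨w, hw, l, hl, h⟩, rfl⟩ := hg _ h1 ⟨W, hW, hWs⟩
          refine ⟨l, hl, ?_⟩
          have : l - ι (v + s) = -w + -ι v := by rw [map_add, h]; abel
          rw [this]
          exact hWV _ (hWs w hw) _ (hWs _ hv)
        rwa [hL.closure_eq] at this)
  rw [eq_bot_iff]
  intro l hl
  rw [AddSubgroup.mem_bot]
  apply eq_zero_of_forall_mem_nhds
  intro V hV
  obtain ⟨W, hW, hWs, hWV, _⟩ := exists_half hV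
  have h1 : ι ⁻¹' W ∈ 𝓝 (0 : N) := by
    apply hι.continuous.continuousAt
    rwa [map_zero]
  obtain ⟨⟨V', hV', hV's⟩, hV'W⟩ := hS _ h1
  have hOx : {y | y - l ∈ V' ∩ W} ∈ 𝓝 l := by
    have : ContinuousAt (fun y : G => y - l) l := by fun_prop
    apply this
    show V' ∩ W ∈ 𝓝 (l - l)
    rw [sub_self]
    exact inter_mem hV' hW
  obtain ⟨_, hy, n, rfl⟩ := mem_closure_iff_nhds.1 (hd l) _ hOx
  have hn : ι n ∈ W := hV'W ⟨ι n - l, hy.1, l, hl, by abel⟩
  have := hWV _ hn _ (hWs _ hy.2)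
  have h' : ι n + -(ι n - l) = l := by abel
  rwa [h'] at this

end

/-- Existence of completions. -/
theorem exists_completion (G : Type) [AddCommGroup G] [TopologicalSpace G]
    [IsTopologicalAddGroup G] [T2Space G] :
    ∃ (G' : Type) (_ : AddCommGroup G') (_ : TopologicalSpace G') (_ : IsTopologicalAddGroup G')
      (_ : T2Space G'), GComplete G' ∧ ∃ ι : G →+ G', IsEmbedding ι ∧ DenseRange ι := by
  let _ := IsTopologicalAddGroup.rightUniformSpace G
  have : IsUniformAddGroup G := isUniformAddGroup_of_addCommGroup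
  refine ⟨UniformSpace.Completion G, inferInstance, inferInstance, inferInstance, inferInstance,
    ?_, UniformSpace.Completion.toCompl, ?_, ?_⟩
  · intro 𝒰 h𝒰
    have hC : Cauchy (𝒰 : Filter (UniformSpace.Completion G)) := by
      refine ⟨𝒰.neBot, ?_⟩
      rw [uniformity_eq_comap_nhds_zero (UniformSpace.Completion G)]
      rw [← map_le_iff_le_comap]
      intro V hV
      obtain ⟨W, hW, hWs, hWV, _⟩ := exists_half hV
      obtain ⟨g, hg⟩ := h𝒰 W hW
      rw [mem_map]
      refine mem_of_superset (prod_mem_prod hg hg) ?_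
      rintro ⟨a, b⟩ ⟨ha, hb⟩
      have := hWV _ hb _ (hWs _ ha)
      have h' : b - g + -(a - g) = b - a := by abel
      rw [h'] at this
      exact this
    exact CompleteSpace.complete hC
  · exact (UniformSpace.Completion.isUniformEmbedding_coe G).isEmbedding
  · exact UniformSpace.Completion.denseRange_coe

end Pool.Agent.Helper21.LM
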