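import Pool.Agent.Helper21.LM.Basic

set_option autoImplicit false

/-!
# Independent sequences in minimal groups
-/

open Topology Filter Set

namespace Pool.Agent.Helper21.LM

theorem exists_seq_dep {α : Type*} [Nonempty α] (P : ℕ → (ℕ → α) → α → Prop)
    (hP : ∀ n f g y, (∀ i < n, f i = g i) → P n f y → P n g y)
    (h : ∀ n f, ∃ y, P n f y) : ∃ x : ℕ → α, ∀ n, P n x (x n) := by
  classical
  choose c hc using h
  let s : ℕ → (ℕ → α) := fun n => Nat.rec (fun _ => Classical.arbitrary α)
    (fun n f => Function.update f n (c n f)) n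
  have hs : ∀ n, s (n + 1) = Function.update (s n) n (c n (s n)) := fun n => rfl
  have stab : ∀ i n, i < n → s n i = s (i + 1) i := by
    intro i n hin
    induction n with
    | zero => omega
    | succ n ih =>
      rcases Nat.lt_succ_iff_lt_or_eq.1 hin with h | h
      · rw [hs, Function.update_of_ne (by omega)]
        exact ih h
      · rw [h]
  refine ⟨fun n => s (n + 1) n, fun n => ?_⟩
  have h1 : P n (s n) (c n (s n)) := hc n (s n)
  have h2 : s (n + 1) n = c n (s n) := by rw [hs, Function.update_self]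
  show P n _ (s (n + 1) n)
  rw [h2]
  exact hP n (s n) _ _ (fun i hi => stab i n hi) h1

section
variable {G : Type*} [AddCommGroup G] [τ : TopologicalSpace G] [IsTopologicalAddGroup G]

/-- Integral combinations of a sequence. -/
noncomputable abbrev lc {G : Type*} [AddCommGroup G] (x : ℕ → G) : (ℕ →₀ ℤ) →ₗ[ℤ] G :=
  Finsupp.linearCombination ℤ x

theorem lc_single {G : Type*} [AddCommGroup G] (x : ℕ → G) (i : ℕ) (a : ℤ) :
    lc x (Finsupp.single i a) = a • x i := by
  simp [lc, Finsupp.linearCombination_single]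

theorem lc_eq_zero {G : Type*} [AddCommGroup G] (x : ℕ → G) (c : ℕ →₀ ℤ)
    (h : ∀ i, c i • x i = 0) : lc x c = 0 := by
  rw [lc, Finsupp.linearCombination_apply, Finsupp.sum]
  exact Finset.sum_eq_zero fun i _ => h i

theorem lc_congr {G : Type*} [AddCommGroup G] (x y : ℕ → G) (c : ℕ →₀ ℤ)
    (h : ∀ i, c i ≠ 0 → x i = y i) : lc x c = lc y c := by
  rw [lc, lc, Finsupp.linearCombination_apply, Finsupp.linearCombination_apply]
  apply Finsupp.sum_congr
  intro i hi
  rw [h i (Finsupp.mem_support_iff.1 hi)]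

omit [IsTopologicalAddGroup G] in
theorem eq_zero_of_forall_mem_nhds [T2Space G] {g : G} (h : ∀ V ∈ 𝓝 (0 : G), g ∈ V) : g = 0 := by
  by_contra hne
  have : {g}ᶜ ∈ 𝓝 (0 : G) := isOpen_compl_singleton.mem_nhds (fun h => hne h.symm)
  exact h _ this rfl

theorem IsMin.ind [T2Space G] (hG : IsMin G) {U : Set G} (hU : U ∈ 𝓝 (0 : G)) (x : ℕ → G)
    (hind : ∀ c : ℕ →₀ ℤ, (∀ i, |c i| ≤ 2 * i) → lc x c ∈ U → ∀ i, c i • x i = 0) :
    ∃ m, ∀ i, m ≤ i → x i = 0 := by
  let S : ℕ → Set G := fun m => {g | ∃ c : ℕ →₀ ℤ, (∀ i, |c i| * 2 ^ m ≤ i) ∧ g = lc x c}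
  obtain ⟨m, hm⟩ := hG.key S
    (fun m => ⟨0, by simp, by simp⟩)
    (by
      rintro m _ ⟨c, hc, rfl⟩
      exact ⟨-c, by simpa using hc, by simp⟩)
    (by
      intro m
      refine ⟨m + 1, ?_⟩
      rintro _ ⟨c, hc, rfl⟩ _ ⟨d, hd, rfl⟩
      refine ⟨c + d, fun i => ?_, by simp⟩
      have h1 := hc i
      have h2 := hd i
      have h3 : |(c + d) i| ≤ |c i| + |d i| := by
        rw [Finsupp.add_apply]; exact abs_add_le _ _
      have h4 : (0 : ℤ) < 2 ^ m := by positivity
      rw [pow_succ] at h1 h2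
      nlinarith)
    (by
      intro i j
      have key : ∀ a b : ℕ, a ≤ b → S b ⊆ S a := by
        rintro a b hab _ ⟨c, hc, rfl⟩
        refine ⟨c, fun i => le_trans ?_ (hc i), rfl⟩
        exact mul_le_mul_of_nonneg_left (pow_le_pow_right₀ (by norm_num) hab) (abs_nonneg _)
      exact ⟨max i j, key _ _ (le_max_left _ _), key _ _ (le_max_right _ _)⟩)
    (by
      intro g hg
      obtain ⟨V₀, hV₀, hV₀s, hV₀U, _⟩ := exists_half hU
      obtain ⟨v₀, hv₀, _, ⟨c, hc, rfl⟩, hgc⟩ := hg V₀ hV₀ 0
      -- comparison of two representations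
      have comp : ∀ V ∈ 𝓝 (0 : G), ∀ m, ∃ v ∈ V, ∃ d : ℕ →₀ ℤ, (∀ i, |d i| * 2 ^ m ≤ i) ∧
          g = v + lc x d ∧ ∀ i, (c - d) i • x i = 0 := by
        intro V hV m
        obtain ⟨v, hv, _, ⟨d, hd, rfl⟩, hgd⟩ := hg (V ∩ V₀) (inter_mem hV hV₀) m
        refine ⟨v, hv.1, d, hd, hgd, ?_⟩
        apply hind
        · intro i
          have h1 : |c i| ≤ i := by simpa using hc i
          have h2 : |d i| ≤ i := by
            refine le_trans ?_ (hd i)
            have : (1 : ℤ) ≤ 2 ^ m := one_le_pow₀ (by norm_num)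
            nlinarith [abs_nonneg (d i)]
          rw [Finsupp.sub_apply]
          have := abs_sub (c i) (d i)
          linarith
        · rw [map_sub]
          have : lc x c - lc x d = v + -v₀ := by
            have h1 : lc x c = g - v₀ := by rw [hgc]; abel
            have h2 : lc x d = g - v := by rw [hgd]; abel
            rw [h1, h2]; abel
          rw [this]
          exact hV₀U v hv.2 _ (hV₀s v₀ hv₀)
      -- `lc x c = 0`
      have hc0 : lc x c = 0 := by
        obtain ⟨v, _, d, hd, _, hcd⟩ := comp univ univ_mem (c.support.sup id + 1)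
        apply lc_eq_zero
        intro i
        by_cases hci : c i = 0
        · rw [hci, zero_smul]
        · have hi : i ≤ c.support.sup id :=
            Finset.le_sup (f := id) (Finsupp.mem_support_iff.2 hci)
          have hlt : (i : ℤ) < 2 ^ (c.support.sup id + 1) := by
            have : i < 2 ^ (c.support.sup id + 1) :=
              lt_of_lt_of_le (Nat.lt_two_pow_self) (Nat.pow_le_pow_right (by norm_num) (by omega))
            exact_mod_cast this
          have hdi : d i = 0 := by
            by_contra hne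
            have h1 : 1 ≤ |d i| := Int.one_le_abs hne
            have h2 := hd i
            have h3 : (0 : ℤ) < 2 ^ (c.support.sup id + 1) := by positivity
            nlinarith
          have := hcd i
          rwa [Finsupp.sub_apply, hdi, sub_zero] at this
      apply eq_zero_of_forall_mem_nhds
      intro V hV
      obtain ⟨v, hv, d, _, hgd, hcd⟩ := comp V hV 0
      have hd0 : lc x d = 0 := by
        have h1 := lc_eq_zero x (c - d) hcd
        rw [map_sub, hc0, zero_sub, neg_eq_zero] at h1
        exact h1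
      rw [hgd, hd0, add_zero]
      exact hv)
    U hU
  refine ⟨2 ^ m, fun i hi => ?_⟩
  have h1 : x i ∈ S m := by
    refine ⟨Finsupp.single i 1, fun j => ?_, by rw [lc_single, one_smul]⟩
    by_cases hj : i = j
    · subst hj
      rw [Finsupp.single_eq_same]
      simp only [abs_one, one_mul]
      exact_mod_cast hi
    · rw [Finsupp.single_eq_of_ne (fun h => hj h.symm)]
      simp
  have h2 := hind (Finsupp.single i 1) (fun j => by
    by_cases hj : i = j
    · subst hj
      rw [Finsupp.single_eq_same]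
      have : 1 ≤ i := le_trans Nat.one_le_two_pow hi
      have : (1 : ℤ) ≤ i := by exact_mod_cast this
      simp only [abs_one]; linarith
    · rw [Finsupp.single_eq_of_ne (fun h => hj h.symm)]
      simp) (by rw [lc_single, one_smul]; exact hm h1) i
  simpa using h2

/-! ### Covering lemma -/

theorem cover_aux {G : Type*} [AddCommGroup G] (n : ℕ) (E : ℕ → Set G)
    (hE : ∀ k < n, ∀ F : Set G, F.Finite → ∃ x, ∀ f ∈ F, ∀ a ∈ E k, ∀ b ∈ E k, x ≠ f + (a - b)) :
    ∀ F : ℕ → Set G, (∀ k < n, (F k).Finite) →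
      ∃ x, ∀ k < n, ∀ f ∈ F k, ∀ e ∈ E k, x ≠ f + e := by
  classical
  induction n with
  | zero => intro F _; exact ⟨0, fun k hk => absurd hk (Nat.not_lt_zero k)⟩
  | succ n ih =>
    intro F hF
    obtain ⟨g, -, hg⟩ := exists_seq_of_forall_finset_exists (fun _ : G => True)
      (fun u y => ∀ a ∈ E n, ∀ b ∈ E n, y ≠ u + (a - b)) (by
        intro s _
        obtain ⟨x, hx⟩ := hE n (Nat.lt_succ_self n) (s : Set G) s.finite_toSet
        exact ⟨x, trivial, fun u hu => hx u hu⟩)
    have hFn := hF n (Nat.lt_succ_self n)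
    set r := hFn.toFinset.card with hr
    obtain ⟨x, hx⟩ := ih (fun k hk => hE k (Nat.lt_succ_of_lt hk))
      (fun k => ⋃ i ∈ Finset.range (r + 1), (fun f => f - g i) '' (F k)) (by
        intro k hk
        apply Set.Finite.biUnion (Finset.finite_toSet _)
        intro i _
        exact (hF k (Nat.lt_succ_of_lt hk)).image _)
    by_contra hcon
    push Not at hcon
    -- all `x + g i` lie in `F n + E n`
    have hall : ∀ i ∈ Finset.range (r + 1), ∃ f ∈ F n, ∃ e ∈ E n, x + g i = f + e := by
      intro i hi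
      obtain ⟨k, hk, f, hf, e, he, hxe⟩ := hcon (x + g i)
      rcases Nat.lt_succ_iff_lt_or_eq.1 hk with h | h
      · exfalso
        apply hx k h (f - g i) _ e he
        · have : x = x + g i - g i := by abel
          rw [this, hxe]; abel
        · simp only [mem_iUnion]
          exact ⟨i, hi, f, hf, rfl⟩
      · subst h
        exact ⟨f, hf, e, he, hxe⟩
    choose! φ hφ e he hxe using hall
    obtain ⟨i, hi, j, hj, hij, heq⟩ := Finset.exists_ne_map_eq_of_card_lt_of_maps_to
      (s := Finset.range (r + 1)) (t := hFn.toFinset) (f := φ)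
      (by rw [Finset.card_range]; omega)
      (fun i hi => by simpa using hφ i hi)
    have hdiff : g j = g i + (e j - e i) := by
      have h1 := hxe i hi
      have h2 := hxe j hj
      rw [heq] at h1
      have e1 : g i = φ j + e i - x := by rw [← h1]; abel
      have e2 : g j = φ j + e j - x := by rw [← h2]; abel
      rw [e1, e2]; abel
    rcases lt_or_gt_of_ne hij with h | h
    · exact hg i j h (e j) (he j hj) (e i) (he i hi) hdiff
    · apply hg j i h (e i) (he i hi) (e j) (he j hj)
      rw [hdiff]; abel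

theorem finite_coeffs (n : ℕ) (b : ℕ → ℤ) :
    {c : ℕ →₀ ℤ | (∀ i, |c i| ≤ b i) ∧ ∀ i, n ≤ i → c i = 0}.Finite := by
  classical
  let B : ℕ →₀ ℤ := Finsupp.onFinset (Finset.range n) (fun i => if i < n then |b i| else 0) (by
    intro i hi
    simp only [Finset.mem_range]
    by_contra h
    simp [h] at hi)
  refine (Set.finite_Icc (-B) B).subset ?_
  rintro c ⟨hc, hc0⟩
  have hB : ∀ i, B i = if i < n then |b i| else 0 := fun i => rfl
  have key : ∀ i, |c i| ≤ B i := by
    intro i
    rw [hB]
    split_ifs with h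
    · exact le_trans (hc i) (le_abs_self _)
    · rw [hc0 i (not_lt.1 h)]; simp
  constructor
  · intro i
    rw [Finsupp.neg_apply]
    exact (abs_le.1 (key i)).1
  · intro i
    exact (abs_le.1 (key i)).2

/-- In a minimal group, for every neighbourhood `U` of zero some `k G` (`k ≥ 1`) is covered by
finitely many translates of `U`. -/
theorem IsMin.caseA [T2Space G] (hG : IsMin G) : ∀ U ∈ 𝓝 (0 : G), ∃ k : ℕ, 1 ≤ k ∧
    ∃ F : Set G, F.Finite ∧ ∀ x : G, ∃ f ∈ F, k • x - f ∈ U := by
  by_contra hcon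
  push Not at hcon
  obtain ⟨U₀, hU₀, hcon⟩ := hcon
  obtain ⟨U', hU', hU's, hU'U, _⟩ := exists_half hU₀
  obtain ⟨U, hU, hUs, hUU', _⟩ := exists_half hU'
  -- the sequence
  obtain ⟨x, hx⟩ := exists_seq_dep (α := G)
    (fun n f y => ∀ k : ℕ, 1 ≤ k → k ≤ 2 * n → ∀ c : ℕ →₀ ℤ, (∀ i, |c i| ≤ 2 * i) →
      (∀ i, n ≤ i → c i = 0) → k • y - lc f c ∉ U)
    (by
      intro n f g y hfg h k hk1 hk2 c hc hc0
      rw [lc_congr g f c (fun i hi => (hfg i (by by_contra h'; exact hi (hc0 i (not_lt.1 h')))).symm)]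
      exact h k hk1 hk2 c hc hc0)
    (by
      intro n f
      by_contra hno
      push Not at hno
      -- the finite set of combinations
      set F : Set G := (lc f) '' {c : ℕ →₀ ℤ | (∀ i, |c i| ≤ 2 * i) ∧ ∀ i, n ≤ i → c i = 0} with hF
      have hFfin : F.Finite := (finite_coeffs n (fun i => 2 * i)).image _
      have hz : ∀ (k : ℕ) (a : G), ∃ z : G, (∃ z', k • z' - a ∈ U) → k • z - a ∈ U := by
        intro k a
        by_cases h : ∃ z', k • z' - a ∈ U
        · obtain ⟨z, hz⟩ := h
          exact ⟨z, fun _ => hz⟩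
        · exact ⟨0, fun h' => absurd h' h⟩
      choose z hz using hz
      obtain ⟨y, hy⟩ := cover_aux (2 * n + 1) (fun k => {w : G | 1 ≤ k ∧ ∃ u ∈ U, ∃ v ∈ U, k • w = u + v})
        (by
          intro k _ F' hF'
          by_cases hk : 1 ≤ k
          · obtain ⟨w, hw⟩ := hcon k hk ((fun f => k • f) '' F') (hF'.image _)
            refine ⟨w, ?_⟩
            rintro f hf a ⟨_, u, hu, v, hv, hauv⟩ b ⟨_, u', hu', v', hv', hbuv⟩ hwe
            apply hw (k • f) ⟨f, hf, rfl⟩
            have : k • w - k • f = (u + v) + -(u' + v') := by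
              rw [hwe, smul_add, smul_sub, hauv, hbuv]; abel
            rw [this]
            exact hU'U _ (hUU' u hu v hv) _ (hU's _ (hUU' u' hu' v' hv'))
          · exact ⟨0, fun f _ a ha => absurd ha.1 hk⟩)
        (fun k => (z k) '' F) (fun k _ => hFfin.image _)
      obtain ⟨k, hk1, hk2, c, hc, hc0, hmem⟩ := hno y
      have h1 : k • z k (lc f c) - lc f c ∈ U := hz k _ ⟨y, hmem⟩
      apply hy k (by omega) (z k (lc f c)) ⟨lc f c, ⟨c, ⟨hc, hc0⟩, rfl⟩, rfl⟩
        (y - z k (lc f c)) ⟨hk1, k • y - lc f c, hmem, -(k • z k (lc f c) - lc f c), hUs _ h1, ?_⟩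
      · abel
      · rw [smul_sub]; abel)
  -- independence
  have hind : ∀ c : ℕ →₀ ℤ, (∀ i, |c i| ≤ 2 * i) → lc x c ∈ U → ∀ i, c i • x i = 0 := by
    classical
    intro c hc hcU
    by_contra hne
    push Not at hne
    obtain ⟨i₀, hi₀⟩ := hne
    have hsupp : c.support.Nonempty := by
      refine ⟨i₀, Finsupp.mem_support_iff.2 ?_⟩
      intro h; rw [h, zero_smul] at hi₀; exact hi₀ rfl
    set m := c.support.max' hsupp with hm
    have hcm : c m ≠ 0 := Finsupp.mem_support_iff.1 (Finset.max'_mem _ hsupp)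
    have hlarge : ∀ i, m < i → c i = 0 := by
      intro i hi
      by_contra h
      exact absurd (Finset.le_max' _ i (Finsupp.mem_support_iff.2 h)) (not_le.2 hi)
    set d := c.erase m with hd
    have hdc : lc x c = c m • x m + lc x d := by
      have : c = Finsupp.single m (c m) + d := (Finsupp.single_add_erase m c).symm
      conv_lhs => rw [this]
      rw [map_add, lc_single]
    have hd0 : ∀ i, m ≤ i → d i = 0 := by
      intro i hi
      rcases eq_or_lt_of_le hi with h | h
      · rw [← h, hd, Finsupp.erase_same]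
      · rw [hd, Finsupp.erase_ne (ne_of_gt h)]; exact hlarge i h
    have hdb : ∀ i, |d i| ≤ 2 * i := by
      intro i
      by_cases h : i = m
      · rw [h, hd, Finsupp.erase_same]; simp
      · rw [hd, Finsupp.erase_ne h]; exact hc i
    have hk1 : 1 ≤ (c m).natAbs := Nat.one_le_iff_ne_zero.2 (Int.natAbs_ne_zero.2 hcm)
    have hk2 : (c m).natAbs ≤ 2 * m := by
      have := hc m
      rw [Int.abs_eq_natAbs] at this
      exact_mod_cast this
    rcases lt_or_gt_of_ne hcm with hneg | hpos
    · -- negative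
      apply hx m (c m).natAbs hk1 hk2 d hdb hd0
      have h1 : ((c m).natAbs : ℤ) = -(c m) := by
        rw [Int.natCast_natAbs, abs_of_neg hneg]
      have h2 : (c m).natAbs • x m = -(c m) • x m := by
        rw [← natCast_zsmul, h1]
      have : (c m).natAbs • x m - lc x d = -(lc x c) := by
        rw [h2, hdc, neg_smul]; abel
      rw [this]
      exact hUs _ hcU
    · apply hx m (c m).natAbs hk1 hk2 (-d) (by simpa using hdb) (by simpa using hd0)
      have h1 : ((c m).natAbs : ℤ) = c m := by
        rw [Int.natCast_natAbs, abs_of_pos hpos]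
      have h2 : (c m).natAbs • x m = c m • x m := by
        rw [← natCast_zsmul, h1]
      have : (c m).natAbs • x m - lc x (-d) = lc x c := by
        rw [h2, hdc, map_neg]; abel
      rw [this]
      exact hcU
  obtain ⟨m, hm⟩ := hG.ind hU x hind
  have h1 := hx (m + 1) 1 le_rfl (by omega) 0 (by simp) (by simp)
  apply h1
  rw [hm (m + 1) (by omega)]
  simpa using mem_of_mem_nhds hU

/-- Sequences independent modulo `p G`. -/
theorem exists_indep_mod {p : ℕ} (hp : p.Prime) {U₀ : Set G} (hU₀ : U₀ ∈ 𝓝 (0 : G))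
    (hcon : ∀ F : Set G, F.Finite → ∃ x, ∀ f ∈ F, ∀ z : G, x - f - p • z ∉ U₀) :
    ∃ (x : ℕ → G), ∃ U₁ ∈ 𝓝 (0 : G), ∀ c : ℕ →₀ ℤ, ∀ z : G, lc x c - p • z ∈ U₁ →
      ∀ i, (p : ℤ) ∣ c i := by
  classical
  obtain ⟨x, hx⟩ := exists_seq_dep (α := G)
    (fun n f y => ∀ c : ℕ →₀ ℤ, (∀ i, |c i| ≤ p) → (∀ i, n ≤ i → c i = 0) →
      ∀ z : G, y - lc f c - p • z ∉ U₀)
    (by
      intro n f g y hfg h c hc hc0
      rw [lc_congr g f c (fun i hi => (hfg i (by by_contra h'; exact hi (hc0 i (not_lt.1 h')))).symm)]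
      exact h c hc hc0)
    (by
      intro n f
      obtain ⟨y, hy⟩ := hcon ((lc f) '' {c : ℕ →₀ ℤ | (∀ i, |c i| ≤ p) ∧ ∀ i, n ≤ i → c i = 0})
        ((finite_coeffs n (fun _ => p)).image _)
      exact ⟨y, fun c hc hc0 z => hy _ ⟨c, ⟨hc, hc0⟩, rfl⟩ z⟩)
  refine ⟨x, ⋂ a ∈ Finset.range p, (fun u : G => a • u) ⁻¹' U₀, ?_, ?_⟩
  · rw [biInter_finset_mem]
    intro a _
    have : ContinuousAt (fun u : G => a • u) 0 := (continuous_nsmul a).continuousAt
    apply this
    simpa using hU₀
  · intro c z hcz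
    by_contra hne
    push Not at hne
    obtain ⟨i₀, hi₀⟩ := hne
    set T := c.support.filter (fun i => ¬ (p : ℤ) ∣ c i) with hT
    have hTne : T.Nonempty := by
      refine ⟨i₀, Finset.mem_filter.2 ⟨Finsupp.mem_support_iff.2 ?_, hi₀⟩⟩
      intro h; rw [h] at hi₀; exact hi₀ (dvd_zero _)
    set m := T.max' hTne with hm
    have hmT : m ∈ T := Finset.max'_mem _ hTne
    have hpm : ¬ (p : ℤ) ∣ c m := (Finset.mem_filter.1 hmT).2
    have hlarge : ∀ i, m < i → (p : ℤ) ∣ c i := by
      intro i hi
      by_contra h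
      have : i ∈ T := Finset.mem_filter.2 ⟨Finsupp.mem_support_iff.2 (by
        intro h0; rw [h0] at h; exact h (dvd_zero _)), h⟩
      exact absurd (Finset.le_max' _ i this) (not_le.2 hi)
    -- inverse of `c m` modulo `p`
    have hcop : IsCoprime (c m) (p : ℤ) :=
      ((Nat.prime_iff_prime_int.1 hp).irreducible.coprime_iff_not_dvd.2 hpm).symm
    obtain ⟨a₀, b₀, hab⟩ := hcop
    set a : ℕ := (a₀ % p).toNat with ha
    have hp0 : (p : ℤ) ≠ 0 := by exact_mod_cast hp.ne_zero
    have hap : (a : ℤ) = a₀ % p := Int.toNat_of_nonneg (Int.emod_nonneg _ hp0)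
    have halt : a < p := by
      have := Int.emod_lt_of_pos a₀ (by exact_mod_cast hp.pos : (0 : ℤ) < p)
      rw [← hap] at this
      exact_mod_cast this
    have hacm : (p : ℤ) ∣ a * c m - 1 := by
      have h1 : (p : ℤ) ∣ a₀ * c m - 1 := ⟨-b₀, by linarith⟩
      have h2 : (p : ℤ) ∣ a - a₀ := by
        rw [hap]
        exact ⟨-(a₀ / p), by
          have := Int.emod_add_mul_ediv a₀ p
          linarith⟩
      have : a * c m - 1 = (a - a₀) * c m + (a₀ * c m - 1) := by ring
      rw [this]
      exact dvd_add (Dvd.dvd.mul_right h2 _) h1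
    have hmem : a • (lc x c - p • z) ∈ U₀ := by
      have := mem_iInter₂.1 hcz a (Finset.mem_range.2 halt)
      exact this
    -- the coefficients below `m`
    let d : ℕ →₀ ℤ := Finsupp.onFinset (c.support.filter (· < m))
      (fun i => if i < m then -((a * c i) % p) else 0) (by
        intro i hi
        rw [Finset.mem_filter, Finsupp.mem_support_iff]
        by_cases him : i < m
        · refine ⟨fun h => ?_, him⟩
          simp [h] at hi
        · simp [him] at hi)
    have hdval : ∀ i, d i = if i < m then -((a * c i) % p) else 0 := fun i => rfl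
    have hdb : ∀ i, |d i| ≤ p := by
      intro i
      rw [hdval]
      split_ifs with h
      · rw [abs_neg, abs_of_nonneg (Int.emod_nonneg _ hp0)]
        exact (Int.emod_lt_of_pos _ (by exact_mod_cast hp.pos)).le
      · simp
    have hd0 : ∀ i, m ≤ i → d i = 0 := by
      intro i hi
      rw [hdval, if_neg (not_lt.2 hi)]
    -- `a • lc x c - x m + lc x d` is divisible by `p`
    have hdiv : ∀ i, (p : ℤ) ∣ ((a : ℤ) • c - Finsupp.single m 1 + d : ℕ →₀ ℤ) i := by
      intro i
      rw [Finsupp.add_apply, Finsupp.sub_apply, Finsupp.smul_apply, smul_eq_mul, hdval]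
      rcases lt_trichotomy i m with h | h | h
      · rw [if_pos h, Finsupp.single_eq_of_ne (ne_of_lt h), sub_zero]
        have := Int.dvd_sub_self_of_emod_eq (a := (a * c i)) (b := (p : ℤ)) (c := (a * c i) % p) rfl
        have e : (a : ℤ) * c i + -(a * c i % p) = -((a * c i) % p - a * c i) := by ring
        rw [e, dvd_neg]
        exact this
      · rw [h, if_neg (lt_irrefl _), Finsupp.single_eq_same, add_zero]
        exact hacm
      · rw [if_neg (not_lt.2 h.le), Finsupp.single_eq_of_ne (ne_of_gt h), sub_zero, add_zero]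
        exact Dvd.dvd.mul_left (hlarge i h) _
    obtain ⟨q, hq⟩ : ∃ q : G, lc x ((a : ℤ) • c - Finsupp.single m 1 + d) = p • q := by
      refine ⟨lc x (Finsupp.mapRange (fun t : ℤ => t / p) (by simp)
        ((a : ℤ) • c - Finsupp.single m 1 + d)), ?_⟩
      rw [← natCast_zsmul, ← map_smul]
      congr 1
      ext i
      rw [Finsupp.smul_apply, Finsupp.mapRange_apply, smul_eq_mul]
      exact (Int.mul_ediv_cancel' (hdiv i)).symm
    apply hx m d hdb hd0 (a • z - q)
    have : x m - lc x d - p • (a • z - q) = a • (lc x c - p • z) := by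
      rw [map_add, map_sub, map_smul, lc_single, one_smul, natCast_zsmul] at hq
      rw [smul_sub, smul_sub, ← hq, smul_comm p a z]
      abel
    rw [this]
    exact hmem

/-- A minimal group of prime exponent is precompact. -/
theorem IsMin.precompact_of_exponent [T2Space G] (hG : IsMin G) {p : ℕ} (hp : p.Prime)
    (hpG : ∀ x : G, p • x = 0) : ∀ U ∈ 𝓝 (0 : G), ∃ F : Set G, F.Finite ∧
      ∀ x : G, ∃ f ∈ F, x - f ∈ U := by
  by_contra hcon
  push Not at hcon
  obtain ⟨U₀, hU₀, hcon⟩ := hcon
  obtain ⟨x, U₁, hU₁, hx⟩ := exists_indep_mod hp hU₀ (by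
    intro F hF
    obtain ⟨x, hx⟩ := hcon F hF
    exact ⟨x, fun f hf z => by rw [hpG z, sub_zero]; exact hx f hf⟩)
  obtain ⟨m, hm⟩ := hG.ind hU₁ x (by
    intro c _ hc i
    obtain ⟨t, ht⟩ := hx c 0 (by rwa [smul_zero, sub_zero]) i
    rw [ht, mul_comm, mul_smul, natCast_zsmul, hpG, smul_zero])
  -- `x m = 0` contradicts independence
  have := hx (Finsupp.single m 1) 0 (by
    rw [lc_single, one_smul, hm m le_rfl, smul_zero, sub_zero]
    exact mem_of_mem_nhds hU₁) m
  rw [Finsupp.single_eq_same] at this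
  have h1 : (p : ℤ) ≤ 1 := Int.le_of_dvd one_pos this
  have h2 : 2 ≤ p := hp.two_le
  have : (2 : ℤ) ≤ p := by exact_mod_cast h2
  linarith

end

end Pool.Agent.Helper21.LM
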