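import Pool.Agent.Helper21.LM.Complete

set_option autoImplicit false

/-!
# Torsion-free minimal groups: preparatory lemmas
-/

open Topology Filter Set

namespace Pool.Agent.Helper21.LM

section
variable {G : Type*} [AddCommGroup G] [τ : TopologicalSpace G] [IsTopologicalAddGroup G]

theorem nsmul_mem_nhds (n : ℕ) {V : Set G} (hV : V ∈ 𝓝 (0 : G)) :
    ∃ W ∈ 𝓝 (0 : G), ∀ x ∈ W, n • x ∈ V := by
  have : ContinuousAt (fun u : G => n • u) 0 := (continuous_nsmul n).continuousAt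
  have h : (fun u : G => n • u) ⁻¹' V ∈ 𝓝 (0 : G) := by
    apply this
    simpa using hV
  exact ⟨_, h, fun x hx => hx⟩

/-- Multiplication by `n` is an embedding when injective. -/
theorem IsMin.nsmul_embed [T2Space G] (hG : IsMin G) {n : ℕ}
    (hn : ∀ x : G, n • x = 0 → x = 0) :
    ∀ V ∈ 𝓝 (0 : G), ∃ W ∈ 𝓝 (0 : G), ∀ x, n • x ∈ W → x ∈ V := by
  let I := {V : Set G // V ∈ 𝓝 (0 : G) ∧ ∀ x ∈ V, -x ∈ V}
  have : Nonempty I := ⟨⟨univ, univ_mem, fun _ _ => mem_univ _⟩⟩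
  have key := hG.key (fun W : I => {x | n • x ∈ W.1})
    (by rintro ⟨W, hW, _⟩
        show n • (0 : G) ∈ W
        rw [smul_zero]; exact mem_of_mem_nhds hW)
    (by rintro ⟨W, hW, hWs⟩ x hx
        show n • (-x) ∈ W
        rw [smul_neg]; exact hWs _ hx)
    (by rintro ⟨W, hW, hWs⟩
        obtain ⟨W', hW', hWs', hWW, _⟩ := exists_half hW
        refine ⟨⟨W', hW', hWs'⟩, ?_⟩
        intro x hx y hy
        show n • (x + y) ∈ W
        rw [smul_add]; exact hWW _ hx _ hy)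
    (by rintro ⟨V, hV, hVs⟩ ⟨W, hW, hWs⟩
        exact ⟨⟨V ∩ W, inter_mem hV hW, fun x hx => ⟨hVs x hx.1, hWs x hx.2⟩⟩,
          fun x hx => hx.1, fun x hx => hx.2⟩)
    (by intro g hg
        apply hn
        apply eq_zero_of_forall_mem_nhds
        intro V hV
        obtain ⟨W, hW, hWs, hWV, _⟩ := exists_half hV
        obtain ⟨W', hW', h'⟩ := nsmul_mem_nhds n hW
        obtain ⟨v, hv, s, hs, rfl⟩ := hg W' hW' ⟨W, hW, hWs⟩
        rw [smul_add]
        exact hWV _ (h' v hv) _ hs)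
  intro V hV
  obtain ⟨⟨W, hW, hWs⟩, h⟩ := key V hV
  exact ⟨W, hW, fun x hx => h hx⟩

/-- The image of a closed set under `n •` is closed. -/
theorem isClosed_nsmul_image [T2Space G] (hc : GComplete G) {n : ℕ}
    (hF0 : ∀ V ∈ 𝓝 (0 : G), ∃ W ∈ 𝓝 (0 : G), ∀ x, n • x ∈ W → x ∈ V) {A : Set G}
    (hA : IsClosed A) : IsClosed ((fun x => n • x) '' A) := by
  have hinj : Function.Injective (fun x : G => n • x) := by
    intro x y hxy
    have : x - y = 0 := by
      apply eq_zero_of_forall_mem_nhds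
      intro V hV
      obtain ⟨W, hW, h⟩ := hF0 V hV
      apply h
      have h' : n • x = n • y := hxy
      rw [smul_sub, h', sub_self]
      exact mem_of_mem_nhds hW
    exact sub_eq_zero.1 this
  rw [isClosed_iff_ultrafilter]
  intro y 𝒰 hy hA𝒰
  have hlarge : range (fun x : G => n • x) ∈ 𝒰 :=
    mem_of_superset hA𝒰 (image_subset_range _ _)
  obtain ⟨z, hz⟩ := hc (𝒰.comap hinj hlarge) (by
    intro V hV
    obtain ⟨W, hW, h⟩ := hF0 V hV
    obtain ⟨W', hW', hWs', hWW, _⟩ := exists_half hW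
    have h1 : {w | w - y ∈ W'} ∈ 𝒰 := by
      apply hy
      have : ContinuousAt (fun w : G => w - y) y := by fun_prop
      apply this
      show W' ∈ 𝓝 (y - y)
      rwa [sub_self]
    obtain ⟨_, ⟨g, hg, rfl⟩, hg'⟩ := 𝒰.nonempty_of_mem (inter_mem hA𝒰 h1)
    refine ⟨g, ?_⟩
    rw [Ultrafilter.mem_comap]
    refine mem_of_superset (inter_mem hA𝒰 h1) ?_
    rintro _ ⟨⟨a, ha, rfl⟩, ha'⟩
    refine ⟨a, ?_, rfl⟩
    apply h
    have := hWW _ ha' _ (hWs' _ hg')
    have h2 : n • a - y + -(n • g - y) = n • (a - g) := by rw [smul_sub]; abel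
    simp only at this
    rwa [h2] at this)
  refine ⟨z, ?_, ?_⟩
  · have h1 : A ∈ 𝒰.comap hinj hlarge := by
      rw [Ultrafilter.mem_comap]; exact hA𝒰
    have h2 : z ∈ closure A := mem_closure_iff_ultrafilter.2 ⟨_, h1, hz⟩
    rwa [hA.closure_eq] at h2
  · by_contra hne
    obtain ⟨O₁, O₂, hO₁, hO₂, h1, h2, h3⟩ := t2_separation hne
    have h4 : (fun x : G => n • x) ⁻¹' O₁ ∈ 𝒰.comap hinj hlarge := by
      apply hz
      have : ContinuousAt (fun u : G => n • u) z := (continuous_nsmul n).continuousAt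
      exact this (hO₁.mem_nhds h1)
    rw [Ultrafilter.mem_comap] at h4
    obtain ⟨_, ⟨x, hx, rfl⟩, hx'⟩ := 𝒰.nonempty_of_mem (inter_mem h4 (hy (hO₂.mem_nhds h2)))
    exact disjoint_left.1 h3 hx hx'

/-- Relative precompactness of a subgroup gives precompactness. -/
theorem precompact_subgroup (R : AddSubgroup G)
    (h : ∀ U ∈ 𝓝 (0 : G), ∃ F : Set G, F.Finite ∧ ∀ x ∈ R, ∃ f ∈ F, x - f ∈ U) :
    Precompact R := by
  classical
  intro V hV
  obtain ⟨U, hU, hUV⟩ := (mem_nhds_subtype (R : Set G) 0 V).1 hV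
  obtain ⟨W, hW, hWs, hWU, _⟩ := exists_half hU
  obtain ⟨F, hF, hFR⟩ := h W hW
  let r : G → R := fun f => if h : ∃ y : R, (y : G) - f ∈ W then h.choose else 0
  refine ⟨r '' F, hF.image _, ?_⟩
  intro x
  obtain ⟨f, hf, hxf⟩ := hFR x x.2
  refine ⟨r f, ⟨f, hf, rfl⟩, ?_⟩
  have hex : ∃ y : R, (y : G) - f ∈ W := ⟨x, hxf⟩
  have hr : (r f : G) - f ∈ W := by
    simp only [r]
    rw [dif_pos hex]
    exact hex.choose_spec
  apply hUV
  show ((x - r f : R) : G) ∈ U
  have := hWU _ hxf _ (hWs _ hr)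
  have h2 : (x : G) - f + -((r f : G) - f) = ((x - r f : R) : G) := by
    push_cast; abel
  rwa [h2] at this

omit τ [IsTopologicalAddGroup G] in
/-- Pigeonhole. -/
theorem exists_pair_of_finite_cover {U : Set G} {V : Set G} (hV : ∀ x ∈ V, ∀ y ∈ V, x - y ∈ U) {F : Set G} (hF : F.Finite)
    (x : ℕ → G) (hx : ∀ i, ∃ f ∈ F, x i - f ∈ V) : ∃ i j, i < j ∧ x j - x i ∈ U := by
  choose f hf hfV using hx
  obtain ⟨i, -, j, -, hij, hfe⟩ :=
    Set.infinite_univ.exists_ne_map_eq_of_mapsTo (s := (univ : Set ℕ)) (t := F)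
      (f := f) (fun i _ => hf i) hF
  rcases lt_or_gt_of_ne hij with h | h
  · refine ⟨i, j, h, ?_⟩
    have := hV _ (hfV j) _ (hfV i)
    have h2 : x j - f j - (x i - f i) = x j - x i := by rw [hfe]; abel
    rwa [h2] at this
  · refine ⟨j, i, h, ?_⟩
    have := hV _ (hfV i) _ (hfV j)
    have h2 : x i - f i - (x j - f j) = x i - x j := by rw [hfe]; abel
    rwa [h2] at this

end

/-- If continuous characters separate the points of a minimal group, it is precompact. -/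
theorem IsMin.precompact_of_chars {M : Type*} [AddCommGroup M] [TopologicalSpace M]
    [IsTopologicalAddGroup M] [T2Space M] (hM : IsMin M)
    (hsep : ∀ x : M, x ≠ 0 → ∃ χ : M →+ AddCircle (1 : ℝ), Continuous χ ∧ χ x ≠ 0) :
    Precompact M := by
  classical
  let X := {χ : M →+ AddCircle (1 : ℝ) // Continuous χ}
  let I := Finset X × {ε : ℝ // 0 < ε}
  have : Nonempty I := ⟨(∅, ⟨1, one_pos⟩)⟩
  let S : I → Set M := fun i => {x | ∀ χ ∈ i.1, ‖χ.1 x‖ < i.2.1}
  have key := hM.key S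
    (by rintro ⟨F, ε, hε⟩ χ _
        rw [map_zero, norm_zero]; exact hε)
    (by rintro ⟨F, ε, hε⟩ x hx χ hχ
        rw [map_neg, norm_neg]; exact hx χ hχ)
    (by rintro ⟨F, ε, hε⟩
        refine ⟨(F, ⟨ε / 2, half_pos hε⟩), ?_⟩
        intro x hx y hy χ hχ
        rw [map_add]
        have h1 := hx χ hχ
        have h2 := hy χ hχ
        have h3 := norm_add_le (χ.1 x) (χ.1 y)
        simp only at h1 h2 ⊢
        linarith)
    (by rintro ⟨F, ε, hε⟩ ⟨F', ε', hε'⟩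
        refine ⟨(F ∪ F', ⟨min ε ε', lt_min hε hε'⟩), ?_, ?_⟩
        · intro x hx χ hχ
          exact lt_of_lt_of_le (hx χ (Finset.mem_union_left _ hχ)) (min_le_left _ _)
        · intro x hx χ hχ
          exact lt_of_lt_of_le (hx χ (Finset.mem_union_right _ hχ)) (min_le_right _ _))
    (by intro g hg
        by_contra hne
        obtain ⟨χ, hχ, hχg⟩ := hsep g hne
        have hpos : 0 < ‖χ g‖ := norm_pos_iff.2 hχg
        have h1 : {x | ‖χ x‖ < ‖χ g‖ / 2} ∈ 𝓝 (0 : M) := by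
          have : Continuous fun x => ‖χ x‖ := hχ.norm
          apply (isOpen_lt this continuous_const).mem_nhds
          show ‖χ 0‖ < ‖χ g‖ / 2
          rw [map_zero, norm_zero]; linarith
        obtain ⟨v, hv, s, hs, h⟩ := hg _ h1 ({⟨χ, hχ⟩}, ⟨‖χ g‖ / 2, half_pos hpos⟩)
        have h2 := hs ⟨χ, hχ⟩ (Finset.mem_singleton_self _)
        have h3 := norm_add_le (χ v) (χ s)
        rw [← map_add, ← h] at h3
        have h4 : ‖χ v‖ < ‖χ g‖ / 2 := hv
        simp only at h2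
        linarith)
  intro V hV
  obtain ⟨⟨F, ε, hε⟩, hFV⟩ := key V hV
  let Φ : M → (F → AddCircle (1 : ℝ)) := fun x χ => χ.1.1 x
  have htb : TotallyBounded (range Φ) :=
    isCompact_univ.totallyBounded.subset (subset_univ _)
  obtain ⟨t, ht, htf, htc⟩ := Metric.finite_approx_of_totallyBounded htb ε hε
  have hch : ∀ y ∈ t, ∃ x, Φ x = y := fun y hy => ht hy
  choose! r hr using hch
  refine ⟨r '' t, htf.image _, ?_⟩
  intro x
  have hx := htc (mem_range_self x)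
  rw [mem_iUnion₂] at hx
  obtain ⟨y, hy, hxy⟩ := hx
  refine ⟨r y, ⟨y, hy, rfl⟩, hFV ?_⟩
  intro χ hχ
  have h1 : dist (Φ x ⟨χ, hχ⟩) (y ⟨χ, hχ⟩) < ε :=
    lt_of_le_of_lt (dist_le_pi_dist _ _ _) hxy
  have h2 : y ⟨χ, hχ⟩ = χ.1 (r y) := (congrFun (hr y hy) ⟨χ, hχ⟩).symm
  rw [h2, dist_eq_norm] at h1
  rw [map_sub]
  exact h1

end Pool.Agent.Helper21.LM
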