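import Pool.Agent.Helper21.LM.TF1
import Pool.Agent.Helper89.PeterWeyl
import Pool.Agent.Helper99.CharExtend

set_option autoImplicit false

/-!
# Torsion-free minimal groups: the `p`-open case
-/

open Topology Filter Set

namespace Pool.Agent.Helper21.LM

open Pool.Agent.Helper99.CharExtend (exists_char_extend extend_open exists_char_discrete)

section
variable {G : Type*} [AddCommGroup G] [τ : TopologicalSpace G] [IsTopologicalAddGroup G]

/-- The subgroup of multiples of `n`. -/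
def mulSub (G : Type*) [AddCommGroup G] (n : ℕ) : AddSubgroup G :=
  (nsmulAddMonoidHom n : G →+ G).range

omit τ [IsTopologicalAddGroup G] in
theorem mem_mulSub {n : ℕ} {y : G} : y ∈ mulSub G n ↔ ∃ z : G, y = n • z := by
  constructor
  · rintro ⟨z, rfl⟩; exact ⟨z, rfl⟩
  · rintro ⟨z, rfl⟩; exact ⟨z, rfl⟩

theorem precompact_of_open_of_cover [T2Space G] (hG : IsMin G) (hc : GComplete G)
    (htf : ∀ n : ℕ, n ≠ 0 → ∀ x : G, n • x = 0 → x = 0) {p : ℕ} (hp : p.Prime)
    (h1 : ∃ U ∈ 𝓝 (0 : G), ∀ y ∈ U, ∃ z : G, y = p • z)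
    (h2 : ∀ U ∈ 𝓝 (0 : G), ∃ a : ℕ, ∃ F : Set G, F.Finite ∧ ∀ y : G, ∃ f ∈ F,
      p ^ a • y - f ∈ U) : Precompact G := by
  classical
  -- all `p^j G` are open
  have hopen' : ∀ j : ℕ, ((mulSub G (p ^ j) : AddSubgroup G) : Set G) ∈ 𝓝 (0 : G) := by
    intro j
    induction j with
    | zero =>
      refine mem_of_superset univ_mem ?_
      intro y _
      exact mem_mulSub.2 ⟨y, by simp⟩
    | succ j ih =>
      obtain ⟨U, hU, hUp⟩ := h1
      obtain ⟨W, hW, hWU⟩ := hG.nsmul_embed (n := p ^ j)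
        (htf _ (pow_ne_zero _ hp.ne_zero)) U hU
      refine mem_of_superset (inter_mem ih hW) ?_
      rintro y ⟨hy1, hy2⟩
      obtain ⟨z, rfl⟩ := mem_mulSub.1 hy1
      obtain ⟨w, rfl⟩ := hUp z (hWU z hy2)
      exact mem_mulSub.2 ⟨w, by rw [smul_smul, pow_succ]⟩
  have hopen : ∀ j : ℕ, IsOpen ((mulSub G (p ^ j) : AddSubgroup G) : Set G) := fun j =>
    AddSubgroup.isOpen_of_mem_nhds _ (hopen' j)
  have hclosed : ∀ j : ℕ, IsClosed ((mulSub G (p ^ j) : AddSubgroup G) : Set G) := fun j =>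
    AddSubgroup.isClosed_of_isOpen _ (hopen j)
  have hmono : ∀ i j : ℕ, i ≤ j → mulSub G (p ^ j) ≤ mulSub G (p ^ i) := by
    intro i j hij y hy
    obtain ⟨z, rfl⟩ := mem_mulSub.1 hy
    obtain ⟨k, rfl⟩ := Nat.exists_eq_add_of_le hij
    exact mem_mulSub.2 ⟨p ^ k • z, by rw [smul_smul, pow_add]⟩
  -- the intersection
  set R : AddSubgroup G := ⨅ j : ℕ, mulSub G (p ^ j) with hR
  have hRmem : ∀ y, y ∈ R ↔ ∀ j : ℕ, y ∈ mulSub G (p ^ j) := by
    intro y; rw [hR, AddSubgroup.mem_iInf]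
  have hRclosed : IsClosed (R : Set G) := by
    have : (R : Set G) = ⋂ j : ℕ, ((mulSub G (p ^ j) : AddSubgroup G) : Set G) := by
      ext y
      rw [mem_iInter]
      exact hRmem y
    rw [this]
    exact isClosed_iInter hclosed
  have hRpre : Precompact R := by
    apply precompact_subgroup
    intro U hU
    obtain ⟨a, F, hF, hFU⟩ := h2 U hU
    refine ⟨F, hF, fun x hx => ?_⟩
    obtain ⟨z, rfl⟩ := mem_mulSub.1 ((hRmem x).1 hx a)
    exact hFU z
  have hRcomp : CompactSpace R := compactSpace_of_precompact hRpre (hc.closed_subgroup R hRclosed)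
  -- `p^j G ⊆ R + U` for large `j`
  have claim5 : ∀ U ∈ 𝓝 (0 : G), ∃ j : ℕ, ∀ y ∈ mulSub G (p ^ j), ∃ r ∈ R, y - r ∈ U := by
    intro U hU
    by_contra hcon
    push Not at hcon
    choose y hy hyR using hcon
    let 𝒰 : Ultrafilter G := (hyperfilter ℕ).map y
    have hlarge : ∀ a : ℕ, ((mulSub G (p ^ a) : AddSubgroup G) : Set G) ∈ 𝒰 := by
      intro a
      rw [Ultrafilter.mem_map]
      have : {j : ℕ | a ≤ j} ∈ (hyperfilter ℕ : Filter ℕ) := by
        exact Nat.hyperfilter_le_atTop (Filter.mem_atTop a)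
      exact mem_of_superset this (fun j hj => hmono a j hj (hy j))
    obtain ⟨r, hr⟩ := hc 𝒰 (by
      intro V hV
      obtain ⟨a, F, hF, hFV⟩ := h2 V hV
      by_contra hno
      push Not at hno
      have : (⋂ f ∈ F, {x | x - f ∈ V}ᶜ) ∈ 𝒰 := by
        rw [← Ultrafilter.mem_coe, biInter_mem hF]
        intro f _
        exact Ultrafilter.compl_mem_iff_notMem.2 (hno f)
      obtain ⟨x, hx1, hx2⟩ := 𝒰.nonempty_of_mem (inter_mem this (hlarge a))
      obtain ⟨z, rfl⟩ := mem_mulSub.1 hx2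
      obtain ⟨f, hf, hzf⟩ := hFV z
      exact mem_iInter₂.1 hx1 f hf hzf)
    have hrR : r ∈ R := by
      rw [hRmem]
      intro j
      have : r ∈ closure ((mulSub G (p ^ j) : AddSubgroup G) : Set G) :=
        mem_closure_iff_ultrafilter.2 ⟨𝒰, hlarge j, hr⟩
      rwa [(hclosed j).closure_eq] at this
    have h3 : {w | w - r ∈ U} ∈ 𝒰 := by
      apply hr
      have : ContinuousAt (fun w : G => w - r) r := by fun_prop
      apply this
      show U ∈ 𝓝 (r - r)
      rwa [sub_self]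
    rw [Ultrafilter.mem_map] at h3
    obtain ⟨j, hj⟩ := (hyperfilter ℕ).nonempty_of_mem h3
    exact hyR j r hrR hj
  -- characters separate points
  apply hG.precompact_of_chars
  intro x hx
  by_cases hxR : x ∈ R
  · have hx' : (⟨x, hxR⟩ : R) ≠ 0 := fun h => hx (congrArg Subtype.val h)
    obtain ⟨χ, hχ, hχx⟩ := Pool.Agent.Helper89.PeterWeyl.exists_char_ne_zero hx'
    obtain ⟨W, hW, hWP⟩ := exists_char_extend R χ hχ
    obtain ⟨j, hj⟩ := claim5 W hW
    obtain ⟨ψ, hψ, hψR⟩ := hWP (mulSub G (p ^ j)) hj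
    obtain ⟨Ψ, hΨ, hΨψ⟩ := extend_open _ (hopen j) ψ hψ
    refine ⟨Ψ, hΨ, ?_⟩
    have hxj := (hRmem x).1 hxR j
    have := hΨψ ⟨x, hxj⟩
    rw [hψR x hxR hxj] at this
    show Ψ x ≠ 0
    intro h0
    apply hχx
    rw [← this]
    exact h0
  · rw [hRmem] at hxR
    push Not at hxR
    obtain ⟨j, hj⟩ := hxR
    obtain ⟨Ψ, hΨ⟩ := exists_char_discrete (A := G ⧸ mulSub G (p ^ j))
      (a := QuotientAddGroup.mk' _ x) (by
        intro h
        apply hj
        exact (QuotientAddGroup.eq_zero_iff x).1 h)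
    refine ⟨Ψ.comp (QuotientAddGroup.mk' _), ?_, hΨ⟩
    apply continuous_of_continuousAt_zero
    rw [ContinuousAt, map_zero]
    refine Tendsto.congr' ?_ (tendsto_const_nhds (x := (0 : AddCircle (1 : ℝ))))
    filter_upwards [hopen' j] with y hy
    have : QuotientAddGroup.mk' (mulSub G (p ^ j)) y = 0 := (QuotientAddGroup.eq_zero_iff y).2 hy
    show 0 = Ψ (QuotientAddGroup.mk' (mulSub G (p ^ j)) y)
    rw [this, map_zero]

end

end Pool.Agent.Helper21.LM
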