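import Pool.Agent.Helper21.LM.TF2

set_option autoImplicit false

/-!
# Torsion-free complete minimal groups are compact
-/

open Topology Filter Set

namespace Pool.Agent.Helper21.LM

section
variable {G : Type*} [AddCommGroup G] [τ : TopologicalSpace G] [IsTopologicalAddGroup G]

omit τ [IsTopologicalAddGroup G] in
theorem lc_eq_sum (x : ℕ → G) (c : ℕ →₀ ℤ) (s : Finset ℕ) (hs : ∀ i, c i ≠ 0 → i ∈ s) :
    lc x c = ∑ i ∈ s, c i • x i := by
  rw [lc, Finsupp.linearCombination_apply]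
  apply Finsupp.sum_of_support_subset
  · intro i hi; exact hs i (Finsupp.mem_support_iff.1 hi)
  · intro i _; exact zero_smul _ _

omit τ [IsTopologicalAddGroup G] in
/-- Division with remainder of an integral combination. -/
theorem lc_divmod (x y : ℕ → G) (b : ℕ) (hb : 0 < b) (hy : ∀ i, b ≤ i → x i = b • y i)
    (c : ℕ →₀ ℤ) : ∃ r : ℕ →₀ ℤ, (∀ i, |r i| ≤ b) ∧ (∀ i, b ≤ i → r i = 0) ∧
      ∃ g : G, lc x c = lc x r + b • g := by
  let r : ℕ →₀ ℤ := Finsupp.onFinset c.support (fun i => if b ≤ i then 0 else c i % b) (by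
    intro i hi
    rw [Finsupp.mem_support_iff]
    intro h0
    apply hi
    simp [h0])
  let q : ℕ →₀ ℤ := Finsupp.onFinset c.support (fun i => if b ≤ i then c i else c i / b) (by
    intro i hi
    rw [Finsupp.mem_support_iff]
    intro h0
    apply hi
    simp [h0])
  let z : ℕ → G := fun i => if b ≤ i then y i else x i
  have hr : ∀ i, r i = if b ≤ i then 0 else c i % b := fun i => rfl
  have hq : ∀ i, q i = if b ≤ i then c i else c i / b := fun i => rfl
  have hbz : (0 : ℤ) < b := by exact_mod_cast hb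
  refine ⟨r, ?_, ?_, lc z q, ?_⟩
  · intro i
    rw [hr]
    split_ifs
    · simp
    · rw [abs_of_nonneg (Int.emod_nonneg _ hbz.ne')]
      exact (Int.emod_lt_of_pos _ hbz).le
  · intro i hi
    rw [hr, if_pos hi]
  · rw [lc_eq_sum x c c.support (fun i hi => Finsupp.mem_support_iff.2 hi),
      lc_eq_sum x r c.support (by
        intro i hi
        rw [Finsupp.mem_support_iff]
        intro h0
        apply hi
        rw [hr, h0]; simp),
      lc_eq_sum z q c.support (by
        intro i hi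
        rw [Finsupp.mem_support_iff]
        intro h0
        apply hi
        rw [hq, h0]; simp),
      Finset.smul_sum, ← Finset.sum_add_distrib]
    apply Finset.sum_congr rfl
    intro i _
    rw [hr, hq]
    by_cases hi : b ≤ i
    · rw [if_pos hi, if_pos hi, zero_smul, zero_add, hy i hi]
      simp only [z]
      rw [if_pos hi, smul_comm]
    · rw [if_neg hi, if_neg hi]
      simp only [z]
      rw [if_neg hi, ← natCast_zsmul, smul_smul, ← add_smul]
      congr 1
      rw [add_comm]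
      exact (Int.mul_ediv_add_emod (c i) b).symm

theorem IsMin.mod_prime [T2Space G] (hG : IsMin G) (hc : GComplete G)
    (htf : ∀ n : ℕ, n ≠ 0 → ∀ x : G, n • x = 0 → x = 0) {p : ℕ} (hp : p.Prime) :
    ∀ U ∈ 𝓝 (0 : G), ∃ F : Set G, F.Finite ∧ ∀ x : G, ∃ f ∈ F, ∃ z : G, x - f - p • z ∈ U := by
  classical
  by_contra hcon
  push Not at hcon
  obtain ⟨U₀, hU₀, hcon⟩ := hcon
  obtain ⟨x, U₁, hU₁, hx⟩ := exists_indep_mod hp hU₀ hcon
  -- the modified sequence
  have hfac : ∀ i : ℕ, ∃ e b : ℕ, ¬ p ∣ b ∧ i.factorial = p ^ e * b := fun i =>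
    Nat.exists_eq_pow_mul_and_not_dvd (Nat.factorial_ne_zero i) p hp.ne_one
  choose e b hb hfac using hfac
  set x' : ℕ → G := fun i => b i • x i with hx'def
  have hlc : ∀ c : ℕ →₀ ℤ, ∀ z : G, lc x' c - p • z ∈ U₁ → ∀ i, (p : ℤ) ∣ c i := by
    intro c z hcz i
    let c' : ℕ →₀ ℤ := Finsupp.onFinset c.support (fun i => b i * c i) (by
      intro i hi
      rw [Finsupp.mem_support_iff]
      intro h0
      apply hi
      simp [h0])
    have hc' : ∀ i, c' i = b i * c i := fun i => rfl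
    have h1 : lc x' c = lc x c' := by
      rw [lc_eq_sum x' c c.support (fun i hi => Finsupp.mem_support_iff.2 hi),
        lc_eq_sum x c' c.support (by
          intro i hi
          rw [Finsupp.mem_support_iff]
          intro h0
          apply hi
          rw [hc', h0, mul_zero])]
      apply Finset.sum_congr rfl
      intro i _
      rw [hc', hx'def]
      simp only
      rw [← natCast_zsmul, smul_smul, mul_comm]
    rw [h1] at hcz
    have h2 := hx c' z hcz i
    rw [hc'] at h2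
    have hpz : Prime (p : ℤ) := Nat.prime_iff_prime_int.1 hp
    rcases hpz.dvd_or_dvd h2 with h3 | h3
    · exact absurd (Int.natCast_dvd_natCast.1 h3) (hb i)
    · exact h3
  -- the closed subgroup
  let M₀ : AddSubgroup G := (lc x').toAddMonoidHom.range
  have hM₀ : ∀ m, m ∈ M₀ ↔ ∃ c, m = lc x' c := by
    intro m
    constructor
    · rintro ⟨c, rfl⟩; exact ⟨c, rfl⟩
    · rintro ⟨c, rfl⟩; exact ⟨c, rfl⟩
  let M : AddSubgroup G := M₀.topologicalClosure
  have hMcl : IsClosed (M : Set G) := M₀.isClosed_topologicalClosure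
  have hMM₀ : ∀ m, m ∈ M ↔ m ∈ closure (M₀ : Set G) := fun m => Iff.rfl
  have hM₀M : M₀ ≤ M := M₀.le_topologicalClosure
  have happrox : ∀ m ∈ M, ∀ V ∈ 𝓝 (0 : G), ∃ m₀ ∈ M₀, m₀ - m ∈ V := by
    intro m hm V hV
    rw [hMM₀, mem_closure_iff_nhds_zero] at hm
    obtain ⟨m₀, h1, h2⟩ := hm V hV
    exact ⟨m₀, h1, h2⟩
  have hMmin : IsMin M := hG.isMin_subgroup M hMcl
  have hMc : GComplete M := hc.closed_subgroup M hMcl
  have hMtf : ∀ n : ℕ, n ≠ 0 → ∀ x : M, n • x = 0 → x = 0 := by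
    intro n hn x hx
    apply Subtype.ext
    apply htf n hn
    have := congrArg Subtype.val hx
    simpa using this
  have hpM : IsClosed ((fun x => p • x) '' (M : Set G)) :=
    isClosed_nsmul_image hc (hG.nsmul_embed (htf p hp.ne_zero)) hMcl
  obtain ⟨U₂, hU₂, hU₂s, hU₂₁, _⟩ := exists_half hU₁
  -- Claim 1
  have claim1 : ∀ y ∈ M, y ∈ U₂ → ∃ z ∈ M, y = p • z := by
    intro y hy hyU
    have : y ∈ closure ((fun x => p • x) '' (M : Set G)) := by
      rw [mem_closure_iff_nhds_zero]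
      intro V hV
      obtain ⟨m₀, hm₀, hm₀V⟩ := happrox y hy (V ∩ U₂) (inter_mem hV hU₂)
      refine ⟨m₀, ?_, hm₀V.1⟩
      have h1 : m₀ ∈ U₁ := by
        have := hU₂₁ _ hm₀V.2 _ hyU
        rwa [sub_add_cancel] at this
      obtain ⟨c, rfl⟩ := (hM₀ m₀).1 hm₀
      have h2 := hlc c 0 (by rwa [smul_zero, sub_zero])
      let c' : ℕ →₀ ℤ := Finsupp.onFinset c.support (fun i => c i / p) (by
        intro i hi
        rw [Finsupp.mem_support_iff]
        intro h0
        apply hi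
        simp [h0])
      have hc' : c = (p : ℤ) • c' := by
        ext i
        rw [Finsupp.smul_apply, smul_eq_mul]
        exact (Int.mul_ediv_cancel' (h2 i)).symm
      refine ⟨lc x' c', hM₀M ((hM₀ _).2 ⟨c', rfl⟩), ?_⟩
      show p • lc x' c' = lc x' c
      conv_rhs => rw [hc', map_smul]
      rw [natCast_zsmul]
    rw [hpM.closure_eq] at this
    obtain ⟨z, hz, rfl⟩ := this
    exact ⟨z, hz, rfl⟩
  -- Claim 3
  have claim3 : ∀ U ∈ 𝓝 (0 : G), ∃ a : ℕ, ∃ F : Set G, F.Finite ∧ ∀ y ∈ M, ∃ f ∈ F,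
      p ^ a • y - f ∈ U := by
    intro U hU
    obtain ⟨U', hU', hU's, hU'U, _⟩ := exists_half hU
    obtain ⟨k, hk, F, hF, hFk⟩ := hG.caseA U' hU'
    obtain ⟨a, b', hb', hkab⟩ := Nat.exists_eq_pow_mul_and_not_dvd (n := k) (by omega) p hp.ne_one
    have hb'pos : 0 < b' := by
      rcases Nat.eq_zero_or_pos b' with h | h
      · exact absurd (h ▸ dvd_zero p) hb'
      · exact h
    -- `b'` divides `b i` for `i ≥ b'`
    have hdiv : ∀ i, b' ≤ i → b' ∣ b i := by
      intro i hi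
      have h1 : b' ∣ i.factorial := Nat.dvd_factorial hb'pos hi
      rw [hfac i] at h1
      have h2 : Nat.Coprime b' (p ^ e i) := by
        apply Nat.Coprime.pow_right
        exact ((Nat.Prime.coprime_iff_not_dvd hp).2 hb').symm
      exact h2.dvd_of_dvd_mul_left h1
    let y : ℕ → G := fun i => (b i / b') • x i
    have hy : ∀ i, b' ≤ i → x' i = b' • y i := by
      intro i hi
      show b i • x i = b' • ((b i / b') • x i)
      rw [smul_smul, Nat.mul_div_cancel' (hdiv i hi)]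
    obtain ⟨V, hV, hVU⟩ := nsmul_mem_nhds (p ^ a) hU'
    let F' : Set G := (fun r : ℕ →₀ ℤ => p ^ a • lc x' r) ''
      {c : ℕ →₀ ℤ | (∀ i, |c i| ≤ (b' : ℤ)) ∧ ∀ i, b' ≤ i → c i = 0}
    have hF' : F'.Finite := (finite_coeffs b' (fun _ => (b' : ℤ))).image _
    refine ⟨a, image2 (fun u v => u + v) F' F, hF'.image2 _ hF, ?_⟩
    intro m hm
    obtain ⟨m₀, hm₀, hm₀V⟩ := happrox m hm (-V) (by
      have := neg_mem_nhds_zero G hV
      exact this)
    obtain ⟨c, rfl⟩ := (hM₀ m₀).1 hm₀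
    obtain ⟨r, hr1, hr2, g, hg⟩ := lc_divmod x' y b' hb'pos hy c
    obtain ⟨f, hf, hfg⟩ := hFk g
    refine ⟨p ^ a • lc x' r + f, ⟨_, ⟨r, ⟨hr1, hr2⟩, rfl⟩, f, hf, rfl⟩, ?_⟩
    have h1 : p ^ a • (m - lc x' c) ∈ U' := by
      apply hVU
      have : -(lc x' c - m) ∈ V := hm₀V
      rwa [neg_sub] at this
    have := hU'U _ h1 _ hfg
    have h2 : p ^ a • (m - lc x' c) + (k • g - f) = p ^ a • m - (p ^ a • lc x' r + f) := by
      rw [hg, hkab, smul_sub, smul_add, mul_smul]; abel
    rwa [h2] at this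
  -- apply the `p`-open case to `M`
  have hMpre : Precompact M := by
    apply precompact_of_open_of_cover hMmin hMc hMtf hp
    · refine ⟨Subtype.val ⁻¹' U₂, ?_, ?_⟩
      · apply continuous_subtype_val.continuousAt
        exact hU₂
      · intro y hy
        obtain ⟨z, hz, hyz⟩ := claim1 y y.2 hy
        exact ⟨⟨z, hz⟩, Subtype.ext hyz⟩
    · intro V hV
      obtain ⟨U, hU, hUV⟩ := (mem_nhds_subtype (M : Set G) 0 V).1 hV
      obtain ⟨W, hW, hWs, hWU, _⟩ := exists_half hU
      obtain ⟨a, F, hF, hFM⟩ := claim3 W hW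
      let r : G → M := fun f => if h : ∃ y : M, p ^ a • (y : G) - f ∈ W then p ^ a • h.choose else 0
      refine ⟨a, r '' F, hF.image _, ?_⟩
      intro m
      obtain ⟨f, hf, hmf⟩ := hFM m m.2
      refine ⟨r f, ⟨f, hf, rfl⟩, ?_⟩
      have hex : ∃ y : M, p ^ a • (y : G) - f ∈ W := ⟨m, hmf⟩
      have hr : (r f : G) - f ∈ W := by
        simp only [r]
        rw [dif_pos hex]
        exact hex.choose_spec
      apply hUV
      show ((p ^ a • m - r f : M) : G) ∈ U
      have := hWU _ hmf _ (hWs _ hr)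
      have h2 : p ^ a • (m : G) - f + -((r f : G) - f) = ((p ^ a • m - r f : M) : G) := by
        push_cast; abel
      rwa [h2] at this
  -- pigeonhole
  obtain ⟨U₃, hU₃, hU₃s, hU₃₁, _⟩ := exists_half hU₁
  obtain ⟨F, hF, hFM⟩ := hMpre (Subtype.val ⁻¹' U₃) (by
    apply continuous_subtype_val.continuousAt
    exact hU₃)
  have hx'M : ∀ i, x' i ∈ M := by
    intro i
    apply hM₀M
    rw [hM₀]
    exact ⟨Finsupp.single i 1, by rw [lc_single, one_smul]⟩
  obtain ⟨i, j, hij, hxx⟩ := exists_pair_of_finite_cover (G := M) (U := Subtype.val ⁻¹' U₁)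
    (V := Subtype.val ⁻¹' U₃) (by
      intro x hx y hy
      show ((x - y : M) : G) ∈ U₁
      have := hU₃₁ _ hx _ (hU₃s _ hy)
      rwa [← sub_eq_add_neg] at this) hF (fun i => ⟨x' i, hx'M i⟩) (fun i => hFM _)
  have h1 : lc x' (Finsupp.single j 1 - Finsupp.single i 1) - p • (0 : G) ∈ U₁ := by
    rw [map_sub, lc_single, lc_single, one_smul, one_smul, smul_zero, sub_zero]
    exact hxx
  have h2 := hlc _ 0 h1 j
  rw [Finsupp.sub_apply, Finsupp.single_eq_same, Finsupp.single_eq_of_ne hij.ne', sub_zero] at h2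
  have h3 : (p : ℤ) ≤ 1 := Int.le_of_dvd one_pos h2
  have h4 : 2 ≤ p := hp.two_le
  have : (2 : ℤ) ≤ p := by exact_mod_cast h4
  linarith

theorem IsMin.mod_nat [T2Space G] (hG : IsMin G) (hc : GComplete G)
    (htf : ∀ n : ℕ, n ≠ 0 → ∀ x : G, n • x = 0 → x = 0) (k : ℕ) : k ≠ 0 →
    ∀ U ∈ 𝓝 (0 : G), ∃ F : Set G, F.Finite ∧ ∀ x : G, ∃ f ∈ F, ∃ z : G, x - f - k • z ∈ U := by
  induction k using induction_on_primes with
  | zero => intro h; exact absurd rfl h
  | one =>
    intro _ U hU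
    refine ⟨{0}, finite_singleton _, fun x => ⟨0, rfl, x, ?_⟩⟩
    rw [one_smul, sub_zero, sub_self]
    exact mem_of_mem_nhds hU
  | prime_mul p a hp ih =>
    intro hne U hU
    have ha : a ≠ 0 := by rintro rfl; exact hne (mul_zero _)
    obtain ⟨U', hU', _, hU'U, _⟩ := exists_half hU
    obtain ⟨V, hV, hVU⟩ := nsmul_mem_nhds p hU'
    obtain ⟨F₁, hF₁, h₁⟩ := hG.mod_prime hc htf hp U' hU'
    obtain ⟨F₂, hF₂, h₂⟩ := ih ha V hV
    refine ⟨image2 (fun u v => u + p • v) F₁ F₂, hF₁.image2 _ hF₂, ?_⟩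
    intro x
    obtain ⟨f, hf, z, hz⟩ := h₁ x
    obtain ⟨g, hg, w, hw⟩ := h₂ z
    refine ⟨f + p • g, ⟨f, hf, g, hg, rfl⟩, w, ?_⟩
    have := hU'U _ hz _ (hVU _ hw)
    have h2 : x - f - p • z + p • (z - g - a • w) = x - (f + p • g) - (p * a) • w := by
      rw [smul_sub, smul_sub, mul_smul]; abel
    rwa [h2] at this

/-- Torsion-free complete minimal abelian groups are precompact. -/
theorem IsMin.precompact_of_torsionFree [T2Space G] (hG : IsMin G) (hc : GComplete G)
    (htf : ∀ n : ℕ, n ≠ 0 → ∀ x : G, n • x = 0 → x = 0) : Precompact G := by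
  intro U hU
  obtain ⟨U', hU', _, hU'U, _⟩ := exists_half hU
  obtain ⟨k, hk, F, hF, hFk⟩ := hG.caseA U' hU'
  obtain ⟨F', hF', h'⟩ := hG.mod_nat hc htf k (by omega) U' hU'
  refine ⟨image2 (fun u v => u + v) F' F, hF'.image2 _ hF, ?_⟩
  intro x
  obtain ⟨f', hf', z, hz⟩ := h' x
  obtain ⟨f, hf, hfz⟩ := hFk z
  refine ⟨f' + f, ⟨f', hf', f, hf, rfl⟩, ?_⟩
  have := hU'U _ hz _ hfz
  have h2 : x - f' - k • z + (k • z - f) = x - (f' + f) := by abel
  rwa [h2] at this

/-- Torsion-free complete minimal abelian groups are compact. -/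
theorem IsMin.compact_of_torsionFree [T2Space G] (hG : IsMin G) (hc : GComplete G)
    (htf : ∀ n : ℕ, n ≠ 0 → ∀ x : G, n • x = 0 → x = 0) : CompactSpace G :=
  compactSpace_of_precompact (hG.precompact_of_torsionFree hc htf) hc

end

end Pool.Agent.Helper21.LM
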